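import Pool.Agent.Helper78.SW.Mm
import Pool.Agent.Helper64.WD.Zw

/-!
# Block WZ (MP_973bc8_pr): the cluster weight relative to the boundary
-/

open Finset RP4 DV SW

namespace WZ

private lemma Cb_conn_mono {x y : V} {g g' : V → ℤ} (h : ∀ v, g v ≠ 0 → g' v ≠ 0)
    (hc : Conn g x y) : Conn g' x y := by
  obtain ⟨hx, hr⟩ := hc
  refine ⟨h x hx, ?_⟩
  induction hr with
  | refl => exact Relation.ReflTransGen.refl
  | tail _ huv ih => exact ih.tail ⟨huv.1, h _ huv.2⟩

private lemma Cb_conn_iff {x y : V} {g g' : V → ℤ} (h : ∀ v, |g v| = |g' v|) :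
    Conn g x y ↔ Conn g' x y :=
  ⟨Cb_conn_mono (fun v hv => abs_ne_zero.1 (by rw [← h v]; exact abs_ne_zero.2 hv)),
    Cb_conn_mono (fun v hv => abs_ne_zero.1 (by rw [h v]; exact abs_ne_zero.2 hv))⟩

private lemma Cb_conn_symm {g : V → ℤ} {x y : V} (hc : Conn g x y) : Conn g y x := by
  obtain ⟨hx, hr⟩ := hc
  induction hr with
  | refl => exact ⟨hx, Relation.ReflTransGen.refl⟩
  | @tail u v _ huv ih =>
    have hvu : Adj v u := by
      have h := huv.1
      unfold Adj at *
      rw [abs_sub_comm v.1, abs_sub_comm v.2]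
      exact h
    exact ⟨huv.2, Relation.ReflTransGen.head ⟨hvu, ih.1⟩ ih.2⟩

private lemma Cb_conn_trans {g : V → ℤ} {x y z : V} (h1 : Conn g x y) (h2 : Conn g y z) :
    Conn g x z := ⟨h1.1, h1.2.trans h2.2⟩

private lemma Cb_conn_refl {g : V → ℤ} {x : V} (h : g x ≠ 0) : Conn g x x :=
  ⟨h, Relation.ReflTransGen.refl⟩

private lemma Cb_sign {D : Finset V} {q : ℤ} {h : V → ℤ} (hh : IsHom D q h) {x y : V}
    (hc : Conn h x y) : 0 < h x * h y := by
  obtain ⟨hx, hr⟩ := hc
  induction hr with
  | refl => exact mul_self_pos.2 hx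
  | @tail u v _ huv ih =>
    have hu : h u ≠ 0 := by
      intro h0
      rw [h0, mul_zero] at ih
      exact lt_irrefl _ ih
    have huD : u ∈ D := by
      by_contra hcon
      exact hu (hh.off u hcon)
    have hvD : v ∈ D := by
      by_contra hcon
      exact huv.2 (hh.off v hcon)
    have h1 := hh.step u huD v hvD huv.1
    have h2 := huv.2
    have h3 : (0 < h u ∧ 0 < h v) ∨ (h u < 0 ∧ h v < 0) := by
      rcases abs_cases (h u - h v) with ⟨h4, h5⟩ | ⟨h4, h5⟩ <;> rw [h4] at h1 <;> omega
    rcases h3 with ⟨h4, h5⟩ | ⟨h4, h5⟩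
    · have h6 : 0 < h x := by
        by_contra hcon
        push Not at hcon
        have := mul_nonpos_of_nonpos_of_nonneg hcon h4.le
        omega
      exact mul_pos h6 h5
    · have h6 : h x < 0 := by
        by_contra hcon
        push Not at hcon
        have := mul_nonpos_of_nonneg_of_nonpos hcon h4.le
        omega
      exact mul_pos_of_neg_of_neg h6 h5

private lemma Cb_abs (x : V) (h : V → ℤ) (v : V) : |scf x h v| = |h v| := by
  unfold scf
  split_ifs
  · exact abs_neg _
  · rfl

private lemma Cb_conn (x : V) (h : V → ℤ) : Conn (scf x h) = Conn h := by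
  funext a b
  exact propext (Cb_conn_iff (Cb_abs x h))

private lemma Cb_flip_flip (x : V) (h : V → ℤ) : scf x (scf x h) = h := by
  funext v
  by_cases hc : Conn h x v
  · have h2 : Conn (scf x h) x v := by
      rw [Cb_conn]
      exact hc
    have e1 : scf x (scf x h) v = - scf x h v := by
      conv_lhs => unfold scf
      exact if_pos h2
    have e2 : scf x h v = - h v := by
      unfold scf
      exact if_pos hc
    rw [e1, e2, neg_neg]
  · have h2 : ¬ Conn (scf x h) x v := by
      rw [Cb_conn]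
      exact hc
    have e1 : scf x (scf x h) v = scf x h v := by
      conv_lhs => unfold scf
      exact if_neg h2
    have e2 : scf x h v = h v := by
      unfold scf
      exact if_neg hc
    rw [e1, e2]

private lemma Cb_ext {h : V → ℤ} {x u v : V} (hc : Conn h x u) (huv : Adj u v) (hv : h v ≠ 0) :
    Conn h x v := ⟨hc.1, hc.2.tail ⟨huv, hv⟩⟩

open Classical in
/-- some index with an odd class -/
private noncomputable def Cb_sel {n : ℕ} (Q : Fin n → Prop) : Option (Fin n) :=
  if hQ : ∃ i, Q i then some hQ.choose else none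

private lemma Cb_sel_some {n : ℕ} {Q : Fin n → Prop} {i : Fin n} (h : Cb_sel Q = some i) :
    Q i := by
  unfold Cb_sel at h
  split_ifs at h with hQ
  have h2 := hQ.choose_spec
  rw [Option.some.inj h] at h2
  exact h2

private lemma Cb_sel_none {n : ℕ} {Q : Fin n → Prop} (h : Cb_sel Q = none) (i : Fin n) :
    ¬ Q i := by
  unfold Cb_sel at h
  split_ifs at h with hQ
  exact fun hi => hQ ⟨i, hi⟩

open Classical in
/-- the class of an index is odd -/
private def Cb_odd {n : ℕ} (p : Fin n → V) (h : V → ℤ) (i : Fin n) : Prop :=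
  Odd (Finset.univ.filter (fun j => Conn h (p i) (p j))).card

private lemma Cb_prod_flip {n : ℕ} {p : Fin n → V} {h : V → ℤ} {i : Fin n}
    (hi : Cb_odd p h i) :
    ∏ j, (scf (p i) h (p j) : ℝ) = - ∏ j, (h (p j) : ℝ) := by
  classical
  have h1 : ∀ j, (scf (p i) h (p j) : ℝ) =
      (if Conn h (p i) (p j) then (-1 : ℝ) else 1) * (h (p j) : ℝ) := by
    intro j
    unfold scf
    split_ifs
    · push_cast
      ring
    · ring
  rw [Finset.prod_congr rfl fun j _ => h1 j, Finset.prod_mul_distrib, Finset.prod_ite,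
    Finset.prod_const, Finset.prod_const_one, mul_one]
  have h2 : (-1 : ℝ) ^ (Finset.univ.filter (fun j => Conn h (p i) (p j))).card = -1 := by
    have h3 : Odd (Finset.univ.filter (fun j => Conn h (p i) (p j))).card := by
      unfold Cb_odd at hi
      convert hi
    exact h3.neg_one_pow
  rw [h2]
  ring


open Classical in
/-- the class of an index is odd and its cluster does not meet `B` -/
private def Ce_odd {n : ℕ} (B : Finset V) (p : Fin n → V) (h : V → ℤ) (i : Fin n) : Prop :=
  Odd (Finset.univ.filter (fun j => Conn h (p i) (p j))).card ∧ ∀ v ∈ B, ¬ Conn h (p i) v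

/-- change of the sign on an odd cluster which does not meet `B` -/
private noncomputable def Ce_inv {n : ℕ} (B : Finset V) (p : Fin n → V) (h : V → ℤ) : V → ℤ :=
  match Cb_sel (Ce_odd B p h) with
  | none => h
  | some i => scf (p i) h

private lemma Ce_inv_none {n : ℕ} {B : Finset V} {p : Fin n → V} {h : V → ℤ}
    (hs : Cb_sel (Ce_odd B p h) = none) : Ce_inv B p h = h := by
  unfold Ce_inv
  rw [hs]

private lemma Ce_inv_some {n : ℕ} {B : Finset V} {p : Fin n → V} {h : V → ℤ} {i : Fin n}
    (hs : Cb_sel (Ce_odd B p h) = some i) : Ce_inv B p h = scf (p i) h := by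
  unfold Ce_inv
  rw [hs]

private lemma Ce_odd_flip {n : ℕ} (B : Finset V) (p : Fin n → V) (h : V → ℤ) (x : V) :
    Ce_odd B p (scf x h) = Ce_odd B p h := by
  funext i
  unfold Ce_odd
  rw [Cb_conn]

private lemma Ce_inv_inv {n : ℕ} (B : Finset V) (p : Fin n → V) (h : V → ℤ) :
    Ce_inv B p (Ce_inv B p h) = h := by
  rcases hs : Cb_sel (Ce_odd B p h) with _ | i
  · rw [Ce_inv_none hs, Ce_inv_none hs]
  · rw [Ce_inv_some hs, Ce_inv_some (i := i) (by rw [Ce_odd_flip]; exact hs), Cb_flip_flip]

private lemma Ce_prod {n : ℕ} {D : Finset V} {q b : ℤ} {p : Fin n → V} {h : V → ℤ} (hn : Even n)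
    (hh : IsHom D q h) (hb : ∀ v ∈ bdry D, h v = b) (hne : ∀ i, h (p i) ≠ 0)
    (hev : ∀ i, ¬ Ce_odd (bdry D) p h i) :
    ∏ j, (h (p j) : ℝ) = ∏ j, |(h (p j) : ℝ)| := by
  classical
  set s : Fin n → ℝ := fun j => if 0 < h (p j) then 1 else -1 with hs
  have h1 : ∀ j, (h (p j) : ℝ) = s j * |(h (p j) : ℝ)| := by
    intro j
    rw [hs]
    dsimp only
    split_ifs with h0
    · rw [abs_of_pos (by exact_mod_cast h0), one_mul]
    · have h2 : (h (p j) : ℝ) ≤ 0 := by exact_mod_cast not_lt.1 h0
      rw [abs_of_nonpos h2]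
      ring
  rw [Finset.prod_congr rfl fun j _ => h1 j, Finset.prod_mul_distrib]
  have hsign : ∀ x y, Conn h x y → (0 < h x ↔ 0 < h y) := by
    intro x y hxy
    have h3 := Cb_sign hh hxy
    constructor
    · intro h4
      by_contra hcon
      push Not at hcon
      nlinarith
    · intro h4
      by_contra hcon
      push Not at hcon
      nlinarith
  have h2 : ∏ j, s j = 1 := by
    set f : Fin n → Finset (Fin n) := fun j => Finset.univ.filter (fun k => Conn h (p j) (p k))
      with hf
    have hfm : ∀ j k, k ∈ f j ↔ Conn h (p j) (p k) := by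
      intro j k
      rw [hf]
      simp only [Finset.mem_filter, Finset.mem_univ, true_and]
    set N : Finset (Fin n) := Finset.univ.filter (fun j => ∀ v ∈ bdry D, ¬ Conn h (p j) v) with hN
    have hNm : ∀ j, j ∈ N ↔ ∀ v ∈ bdry D, ¬ Conn h (p j) v := by
      intro j
      rw [hN]
      simp only [Finset.mem_filter, Finset.mem_univ, true_and]
    have hfN : ∀ j ∈ N, ∀ k, Conn h (p j) (p k) → k ∈ N := by
      intro j hj k hk
      rw [hNm] at hj ⊢
      exact fun v hv hc => hj v hv (Cb_conn_trans hk hc)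
    have hfib : ∀ j0 ∈ N, N.filter (fun j => f j = f j0) = f j0 := by
      intro j0 hj0
      ext j
      rw [Finset.mem_filter, hfm]
      constructor
      · rintro ⟨-, hj⟩
        rw [← hfm, ← hj, hfm]
        exact Cb_conn_refl (hne j)
      · intro hj'
        refine ⟨hfN j0 hj0 j hj', ?_⟩
        ext k
        rw [hfm, hfm]
        exact ⟨fun hk => Cb_conn_trans hj' hk, fun hk => Cb_conn_trans (Cb_conn_symm hj') hk⟩
    have hfe : ∀ j0 ∈ N, Even (f j0).card := by
      intro j0 hj0
      have h8 := hev j0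
      unfold Ce_odd at h8
      rw [not_and'] at h8
      have h9 := h8 ((hNm j0).1 hj0)
      rw [Nat.not_odd_iff_even] at h9
      convert h9
    have hNe : Even N.card := by
      rw [Finset.card_eq_sum_card_fiberwise (f := f) (t := N.image f)
        (fun j hj => Finset.mem_image_of_mem f hj)]
      refine Finset.even_sum _ fun c hc => ?_
      obtain ⟨j0, hj0, rfl⟩ := Finset.mem_image.1 hc
      rw [hfib j0 hj0]
      exact hfe j0 hj0
    have hNp : ∏ j ∈ N, s j = 1 := by
      rw [← Finset.prod_fiberwise_of_maps_to (s := N) (t := N.image f) (g := f)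
        (fun j hj => Finset.mem_image_of_mem f hj) s]
      refine Finset.prod_eq_one fun c hc => ?_
      obtain ⟨j0, hj0, rfl⟩ := Finset.mem_image.1 hc
      rw [hfib j0 hj0]
      have hconst : ∀ j ∈ f j0, s j = s j0 := by
        intro j hj
        rw [hfm] at hj
        rw [hs]
        dsimp only
        have h3 := hsign _ _ hj
        by_cases h4 : 0 < h (p j0)
        · rw [if_pos h4, if_pos (h3.1 h4)]
        · rw [if_neg h4, if_neg fun h5 => h4 (h3.2 h5)]
      rw [Finset.prod_congr rfl hconst, Finset.prod_const]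
      have h9 : s j0 = 1 ∨ s j0 = -1 := by
        rw [hs]
        dsimp only
        split_ifs
        · exact Or.inl rfl
        · exact Or.inr rfl
      rcases h9 with h9 | h9
      · rw [h9, one_pow]
      · rw [h9, (hfe j0 hj0).neg_one_pow]
    have hTc : Even (Finset.univ.filter (fun j => ¬ j ∈ N)).card := by
      have h3 := Finset.card_filter_add_card_filter_not (s := (Finset.univ : Finset (Fin n)))
        (fun j => j ∈ N)
      have h4 : (Finset.univ : Finset (Fin n)).filter (fun j => j ∈ N) = N := by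
        ext j
        simp
      rw [h4, Finset.card_univ, Fintype.card_fin] at h3
      obtain ⟨a, ha⟩ := hNe
      obtain ⟨c, hc⟩ := hn
      refine ⟨c - a, ?_⟩
      omega
    have hTp : ∏ j ∈ Finset.univ.filter (fun j => ¬ j ∈ N), s j = 1 := by
      have hconst : ∀ j ∈ Finset.univ.filter (fun j => ¬ j ∈ N), s j = if 0 < b then 1 else -1 := by
        intro j hj
        have hj1 := (Finset.mem_filter.1 hj).2
        rw [hNm] at hj1
        push Not at hj1
        obtain ⟨v, hv, hc⟩ := hj1
        have h3 := hsign _ _ hc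
        rw [hb v hv] at h3
        rw [hs]
        dsimp only
        by_cases h4 : 0 < b
        · rw [if_pos h4, if_pos (h3.2 h4)]
        · rw [if_neg h4, if_neg fun h5 => h4 (h3.1 h5)]
      rw [Finset.prod_congr rfl hconst, Finset.prod_const]
      split_ifs
      · rw [one_pow]
      · rw [hTc.neg_one_pow]
    rw [← Finset.prod_filter_mul_prod_filter_not Finset.univ (fun j => j ∈ N) s, hTp, mul_one]
    have h4 : (Finset.univ : Finset (Fin n)).filter (fun j => j ∈ N) = N := by
      ext j
      simp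
    rw [h4, hNp]
  rw [h2, one_mul]


open Classical in
/-- cluster weight of marked points relative to a set `B`: the clusters which do not meet `B` contain an
even number of marked points -/
noncomputable def clb {n : ℕ} (B : Finset V) (p : Fin n → V) (g : V → ℤ) : ℝ :=
  if (∀ i, g (p i) ≠ 0) ∧ ∀ i, (∀ v ∈ B, ¬ Conn g (p i) v) →
    Even (Finset.univ.filter (fun j => Conn g (p i) (p j))).card
  then ∏ i, |(g (p i) : ℝ)| else 0

lemma clb_nonneg {n : ℕ} (B : Finset V) (p : Fin n → V) (g : V → ℤ) : 0 ≤ clb B p g := by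
  unfold clb
  split_ifs
  · exact Finset.prod_nonneg fun i _ => abs_nonneg _
  · exact le_rfl

/-- a union of classes with an even number of elements -/
private lemma even_union {n : ℕ} {N : Finset (Fin n)} {f : Fin n → Finset (Fin n)}
    (hself : ∀ j ∈ N, j ∈ f j) (hcl : ∀ j ∈ N, f j ⊆ N) (heq : ∀ j ∈ N, ∀ k ∈ f j, f k = f j)
    (hev : ∀ j ∈ N, Even (f j).card) : Even N.card := by
  classical
  rw [Finset.card_eq_sum_card_fiberwise (f := f) (t := N.image f)
    (fun j hj => Finset.mem_image_of_mem f hj)]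
  refine Finset.even_sum _ fun c hc => ?_
  obtain ⟨j0, hj0, rfl⟩ := Finset.mem_image.1 hc
  have h1 : N.filter (fun j => f j = f j0) = f j0 := by
    ext j
    rw [Finset.mem_filter]
    constructor
    · rintro ⟨hj, hj'⟩
      rw [← hj']
      exact hself j hj
    · intro hj
      exact ⟨hcl j0 hj0 hj, heq j0 hj0 j hj⟩
  rw [h1]
  exact hev j0 hj0

lemma clb_mono {n : ℕ} {B : Finset V} {p : Fin n → V} {g g' : V → ℤ} (h : ∀ v, |g v| ≤ |g' v|) :
    clb B p g ≤ clb B p g' := by
  classical
  by_cases hg : (∀ i, g (p i) ≠ 0) ∧ ∀ i, (∀ v ∈ B, ¬ Conn g (p i) v) →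
      Even (Finset.univ.filter (fun j => Conn g (p i) (p j))).card
  · have hne : ∀ v, g v ≠ 0 → g' v ≠ 0 := by
      intro v hv h0
      have h1 := h v
      rw [h0, abs_zero] at h1
      exact hv (abs_eq_zero.1 (le_antisymm h1 (abs_nonneg _)))
    have hcm : ∀ {x y : V}, Conn g x y → Conn g' x y := fun hc => Cb_conn_mono hne hc
    have hg' : (∀ i, g' (p i) ≠ 0) ∧ ∀ i, (∀ v ∈ B, ¬ Conn g' (p i) v) →
        Even (Finset.univ.filter (fun j => Conn g' (p i) (p j))).card := by
      refine ⟨fun i => hne _ (hg.1 i), fun i hi => ?_⟩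
      refine even_union (f := fun j => Finset.univ.filter (fun k => Conn g (p j) (p k)))
        (fun j _ => ?_) (fun j hj => ?_) (fun j _ k hk => ?_) (fun j hj => ?_)
      · rw [Finset.mem_filter]
        exact ⟨Finset.mem_univ _, Cb_conn_refl (hg.1 j)⟩
      · intro k hk
        rw [Finset.mem_filter] at hj hk ⊢
        exact ⟨Finset.mem_univ _, Cb_conn_trans hj.2 (hcm hk.2)⟩
      · rw [Finset.mem_filter] at hk
        ext l
        rw [Finset.mem_filter, Finset.mem_filter]
        constructor
        · rintro ⟨_, hl⟩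
          exact ⟨Finset.mem_univ _, Cb_conn_trans hk.2 hl⟩
        · rintro ⟨_, hl⟩
          exact ⟨Finset.mem_univ _, Cb_conn_trans (Cb_conn_symm hk.2) hl⟩
      · rw [Finset.mem_filter] at hj
        refine hg.2 j fun v hv hc => hi v hv ?_
        exact Cb_conn_trans hj.2 (hcm hc)
    unfold clb
    rw [if_pos hg, if_pos hg']
    refine Finset.prod_le_prod (fun i _ => abs_nonneg _) fun i _ => ?_
    exact_mod_cast h (p i)
  · have h1 : clb B p g = 0 := by
      unfold clb
      rw [if_neg hg]
    rw [h1]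
    exact clb_nonneg B p g'

lemma clb_abs {n : ℕ} (B : Finset V) (p : Fin n → V) (g : V → ℤ) : clb B p (absf g) = clb B p g := by
  refine le_antisymm (clb_mono fun v => ?_) (clb_mono fun v => ?_)
  · show |(|g v|)| ≤ |g v|
    rw [abs_abs]
  · show |g v| ≤ |(|g v|)|
    rw [abs_abs]

theorem clb_incF {n : ℕ} (B : Finset V) (p : Fin n → V) : IncF (clb B p) := by
  refine ⟨fun g => clb_nonneg B p g, fun g => clb_abs B p g, fun g g' h1 h2 => ?_⟩
  refine clb_mono fun v => ?_
  rw [abs_of_nonneg (h1 v), abs_of_nonneg ((h1 v).trans (h2 v))]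
  exact h2 v

/-- for an even number of marked points the sum of the products over a family of height functions with a
constant boundary value is the sum of the cluster weights relative to the boundary -/
theorem prod_clb {n : ℕ} (hn : Even n) {D : Finset V} {q b : ℤ} {p : Fin n → V}
    {A : Finset (V → ℤ)} (hA : ∀ h ∈ A, IsHom D q h ∧ ∀ v ∈ bdry D, h v = b)
    (hfl : ∀ h ∈ A, ∀ i, (∀ v ∈ bdry D, ¬ Conn h (p i) v) → scf (p i) h ∈ A) :
    ∑ h ∈ A, ∏ i, (h (p i) : ℝ) = ∑ h ∈ A, clb (bdry D) p h := by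
  classical
  rw [← sub_eq_zero, ← Finset.sum_sub_distrib,
    ← Finset.sum_filter_add_sum_filter_not A (fun h => Cb_sel (Ce_odd (bdry D) p h) = none)]
  have e1 : ∑ h ∈ A.filter (fun h => Cb_sel (Ce_odd (bdry D) p h) = none),
      (∏ i, (h (p i) : ℝ) - clb (bdry D) p h) = 0 := by
    refine Finset.sum_eq_zero fun h hh => ?_
    obtain ⟨hh, hs⟩ := Finset.mem_filter.1 hh
    have hev := Cb_sel_none hs
    rw [sub_eq_zero]
    by_cases hne : ∀ i, h (p i) ≠ 0
    · rw [Ce_prod hn (hA h hh).1 (hA h hh).2 hne hev]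
      have hcond : (∀ i, h (p i) ≠ 0) ∧ ∀ i, (∀ v ∈ bdry D, ¬ Conn h (p i) v) →
          Even (Finset.univ.filter (fun j => Conn h (p i) (p j))).card := by
        refine ⟨hne, fun i hi => ?_⟩
        have h8 := hev i
        unfold Ce_odd at h8
        rw [not_and'] at h8
        have h9 := h8 hi
        rw [Nat.not_odd_iff_even] at h9
        exact h9
      unfold clb
      rw [if_pos hcond]
    · have h1 : clb (bdry D) p h = 0 := by
        unfold clb
        rw [if_neg (fun hcon => hne hcon.1)]
      push Not at hne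
      obtain ⟨i, hi⟩ := hne
      rw [h1, Finset.prod_eq_zero (Finset.mem_univ i) (by rw [hi]; simp)]
  have hzero : ∀ h : V → ℤ, ∀ i, Ce_odd (bdry D) p h i → clb (bdry D) p h = 0 := by
    intro h i hi
    unfold clb
    rw [if_neg]
    rintro ⟨-, h2⟩
    exact (Nat.not_even_iff_odd.2 hi.1) (h2 i hi.2)
  rw [e1, zero_add]
  refine Finset.sum_involution (fun h _ => Ce_inv (bdry D) p h) ?_ ?_ ?_ ?_
  · intro h hh
    obtain ⟨hh, hs'⟩ := Finset.mem_filter.1 hh
    rcases hs : Cb_sel (Ce_odd (bdry D) p h) with _ | i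
    · exact absurd hs hs'
    · have hi := Cb_sel_some hs
      have hi' : Ce_odd (bdry D) p (scf (p i) h) i := by
        rw [Ce_odd_flip]
        exact hi
      rw [Ce_inv_some hs, hzero _ _ hi, hzero _ _ hi', Cb_prod_flip hi.1]
      ring
  · intro h hh hne heq
    obtain ⟨hh, hs'⟩ := Finset.mem_filter.1 hh
    rcases hs : Cb_sel (Ce_odd (bdry D) p h) with _ | i
    · exact hs' hs
    · have hi := Cb_sel_some hs
      rw [hzero _ _ hi, sub_zero] at hne
      have hx : h (p i) ≠ 0 := by
        intro h0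
        apply hne
        rw [Finset.prod_eq_zero (Finset.mem_univ i) (by rw [h0]; simp)]
      rw [Ce_inv_some hs] at heq
      have h3 := congrFun heq (p i)
      have h2 : scf (p i) h (p i) = - h (p i) := by
        unfold scf
        rw [if_pos (Cb_conn_refl hx)]
      rw [h2] at h3
      omega
  · intro h hh
    obtain ⟨hh, hs'⟩ := Finset.mem_filter.1 hh
    rcases hs : Cb_sel (Ce_odd (bdry D) p h) with _ | i
    · exact absurd hs hs'
    · have hi := Cb_sel_some hs
      rw [Ce_inv_some hs, Finset.mem_filter]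
      refine ⟨hfl h hh i hi.2, ?_⟩
      rw [Ce_odd_flip]
      exact hs'
  · intro h hh
    exact Ce_inv_inv (bdry D) p h

/-- `prod_clb` for the functions on an event of the absolute value -/
theorem prod_clb_filter {n : ℕ} (hn : Even n) {D' : Finset V} {b : ℤ} {p : Fin n → V}
    {A : Finset (V → ℤ)} (hA : ∀ g, g ∈ A ↔ IsHom D' 0 g ∧ ∀ v ∈ bdry D', g v = b)
    {E : (V → ℤ) → Prop} (hE : ∀ g, E (absf g) ↔ E g) {A' : Finset (V → ℤ)}
    (hA' : ∀ g, g ∈ A' ↔ g ∈ A ∧ E g) :
    ∑ g ∈ A', ∏ i, (g (p i) : ℝ) = ∑ g ∈ A', clb (bdry D') p g := by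
  refine prod_clb hn (D := D') (q := 0) (b := b)
    (fun h hh => (hA h).1 ((hA' h).1 hh).1) (fun h hh i hi => ?_)
  obtain ⟨h1, h2⟩ := (hA' h).1 hh
  obtain ⟨h3, h4⟩ := (hA h).1 h1
  refine (hA' _).2 ⟨(hA _).2 ⟨scf_isHom h3 (p i), fun v hv => ?_⟩, ?_⟩
  · rw [scf_off (hi v hv)]
    exact h4 v hv
  · rw [← hE, absf_scf, hE]
    exact h2

end WZ
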