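import Pool.Agent.Helper78.WZ.Cb

/-!
# Block WZ (MP_973bc8_pr): the general FKG inequality with a weight
-/

open Finset RP4 DV SW

namespace WZ

/-- the general FKG inequality of helper97 with a log-supermodular weight of the absolute value -/
theorem gfkg_w {D : Finset V} {p : ℤ} {B : Set V} {T T' : Set (V → ℤ)} {A A' : Finset (V → ℤ)}
    (hA' : Fam D p B T' A') (hA : Fam D p B T A)
    (hinf : ∀ ξ' ∈ T', ∀ ξ ∈ T, IsHom D p ξ' → IsHom D p ξ → (∀ v, 0 ≤ ξ' v) → (∀ v, 0 ≤ ξ v) →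
      ξ' ⊓ ξ ∈ T')
    (hsup : ∀ ξ' ∈ T', ∀ ξ ∈ T, IsHom D p ξ' → IsHom D p ξ → (∀ v, 0 ≤ ξ' v) → (∀ v, 0 ≤ ξ v) →
      ξ' ⊔ ξ ∈ T)
    {w : (V → ℤ) → ℝ} (hw0 : ∀ g, 0 ≤ w g) (hwabs : ∀ g, w (absf g) = w g)
    (hw : ∀ ξ' ∈ T', ∀ ξ ∈ T, IsHom D p ξ' → IsHom D p ξ → (∀ v, 0 ≤ ξ' v) → (∀ v, 0 ≤ ξ v) →
      w ξ' * w ξ ≤ w (ξ' ⊓ ξ) * w (ξ' ⊔ ξ))
    {F : (V → ℤ) → ℝ} (hF : IncF F) :
    (∑ g ∈ A', w g * F g) * (∑ g ∈ A, w g) ≤ (∑ g ∈ A', w g) * ∑ g ∈ A, w g * F g := by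
  classical
  obtain ⟨S, hS⟩ : ∃ S : Finset (V → ℤ), S = A.image absf := ⟨_, rfl⟩
  obtain ⟨S', hS'⟩ : ∃ S : Finset (V → ℤ), S = A'.image absf := ⟨_, rfl⟩
  obtain ⟨m, hm⟩ : ∃ m : (V → ℤ) → ℝ, m = fun ξ => ((A.filter fun g => absf g = ξ).card : ℝ) :=
    ⟨_, rfl⟩
  obtain ⟨m', hm'⟩ : ∃ m : (V → ℤ) → ℝ,
      m = fun ξ => ((A'.filter fun g => absf g = ξ).card : ℝ) := ⟨_, rfl⟩
  have hm0 : ∀ ξ, 0 ≤ m ξ := fun ξ => by rw [hm]; exact Nat.cast_nonneg _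
  have hm0' : ∀ ξ, 0 ≤ m' ξ := fun ξ => by rw [hm']; exact Nat.cast_nonneg _
  have hmem : ∀ ξ, ξ ∈ S ↔ IsHom D p ξ ∧ ξ ∈ T ∧ ∀ v, 0 ≤ ξ v := by
    intro ξ
    rw [hS]
    exact mem_image_absf hA
  have hmem' : ∀ ξ, ξ ∈ S' ↔ IsHom D p ξ ∧ ξ ∈ T' ∧ ∀ v, 0 ≤ ξ v := by
    intro ξ
    rw [hS']
    exact mem_image_absf hA'
  have habs : ∀ g, w (absf g) * F (absf g) = w g * F g := fun g => by rw [hwabs, hF.abs]
  -- the sums
  have e1 : ∑ g ∈ A, w g * F g = ∑ ξ ∈ S, m ξ * (w ξ * F ξ) := by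
    rw [hS, hm]
    exact sum_absf hA (fun g => w g * F g) habs
  have e1' : ∑ g ∈ A', w g * F g = ∑ ξ ∈ S', m' ξ * (w ξ * F ξ) := by
    rw [hS', hm']
    exact sum_absf hA' (fun g => w g * F g) habs
  have e2 : ∑ g ∈ A, w g = ∑ ξ ∈ S, m ξ * w ξ := by
    rw [hS, hm]
    exact sum_absf hA w hwabs
  have e2' : ∑ g ∈ A', w g = ∑ ξ ∈ S', m' ξ * w ξ := by
    rw [hS', hm']
    exact sum_absf hA' w hwabs
  -- the four functions
  obtain ⟨f₁, hf₁⟩ : ∃ f : (V → ℤ) → ℝ, f = fun a => if a ∈ S' then m' a * (w a * F a) else 0 :=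
    ⟨_, rfl⟩
  obtain ⟨f₂, hf₂⟩ : ∃ f : (V → ℤ) → ℝ, f = fun a => if a ∈ S then m a * w a else 0 := ⟨_, rfl⟩
  obtain ⟨f₃, hf₃⟩ : ∃ f : (V → ℤ) → ℝ, f = fun a => if a ∈ S' then m' a * w a else 0 := ⟨_, rfl⟩
  obtain ⟨f₄, hf₄⟩ : ∃ f : (V → ℤ) → ℝ, f = fun a => if a ∈ S then m a * (w a * F a) else 0 :=
    ⟨_, rfl⟩
  have p1 : 0 ≤ f₁ := by
    intro a
    rw [hf₁]
    show 0 ≤ (if a ∈ S' then m' a * (w a * F a) else 0)
    split_ifs with h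
    · exact mul_nonneg (hm0' _) (mul_nonneg (hw0 _) (hF.nonneg _))
    · exact le_rfl
  have p2 : 0 ≤ f₂ := by
    intro a
    rw [hf₂]
    show 0 ≤ (if a ∈ S then m a * w a else 0)
    split_ifs
    · exact mul_nonneg (hm0 _) (hw0 _)
    · exact le_rfl
  have p3 : 0 ≤ f₃ := by
    intro a
    rw [hf₃]
    show 0 ≤ (if a ∈ S' then m' a * w a else 0)
    split_ifs
    · exact mul_nonneg (hm0' _) (hw0 _)
    · exact le_rfl
  have p4 : 0 ≤ f₄ := by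
    intro a
    rw [hf₄]
    show 0 ≤ (if a ∈ S then m a * (w a * F a) else 0)
    split_ifs with h
    · exact mul_nonneg (hm0 _) (mul_nonneg (hw0 _) (hF.nonneg _))
    · exact le_rfl
  have hkey : ∀ a b, f₁ a * f₂ b ≤ f₃ (a ⊓ b) * f₄ (a ⊔ b) := by
    intro a b
    by_cases ha : a ∈ S'
    · by_cases hb : b ∈ S
      · obtain ⟨a1, a2, a3⟩ := (hmem' a).1 ha
        obtain ⟨b1, b2, b3⟩ := (hmem b).1 hb
        have hinf' : a ⊓ b ∈ S' :=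
          (hmem' _).2 ⟨a1.inf b1, hinf a a2 b b2 a1 b1 a3 b3, fun v => le_min (a3 v) (b3 v)⟩
        have hsup' : a ⊔ b ∈ S :=
          (hmem _).2 ⟨a1.sup b1, hsup a a2 b b2 a1 b1 a3 b3, fun v => le_max_of_le_left (a3 v)⟩
        have h1 : f₁ a = m' a * (w a * F a) := by rw [hf₁]; exact if_pos ha
        have h2 : f₂ b = m b * w b := by rw [hf₂]; exact if_pos hb
        have h3 : f₃ (a ⊓ b) = m' (a ⊓ b) * w (a ⊓ b) := by rw [hf₃]; exact if_pos hinf'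
        have h4 : f₄ (a ⊔ b) = m (a ⊔ b) * (w (a ⊔ b) * F (a ⊔ b)) := by rw [hf₄]; exact if_pos hsup'
        rw [h1, h2, h3, h4]
        have hmm1 : m' a * m b ≤ m' (a ⊓ b) * m (a ⊔ b) := by
          have hsm := sg_supermodular a1 b1 a3 b3 (B := B) (B' := B) le_rfl
            (fun v hv hv' => absurd hv hv')
            (fun g => fiber_iff hA' (hS' ▸ ha) g) (fun g => fiber_iff hA (hS ▸ hb) g)
            (fun g => fiber_iff hA' (hS' ▸ hinf') g) (fun g => fiber_iff hA (hS ▸ hsup') g)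
          rw [hm, hm']
          simp only
          exact_mod_cast hsm
        have hww : w a * w b ≤ w (a ⊓ b) * w (a ⊔ b) := hw a a2 b b2 a1 b1 a3 b3
        have hle : F a ≤ F (a ⊔ b) := hF.mono a (a ⊔ b) a3 fun v => le_max_left (a v) (b v)
        have h0 : 0 ≤ F a := hF.nonneg a
        have hmm : (0 : ℝ) ≤ m' (a ⊓ b) * m (a ⊔ b) := mul_nonneg (hm0' _) (hm0 _)
        have hw2 : (0 : ℝ) ≤ w a * w b := mul_nonneg (hw0 _) (hw0 _)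
        have hw3 : (0 : ℝ) ≤ w (a ⊓ b) * w (a ⊔ b) := mul_nonneg (hw0 _) (hw0 _)
        calc m' a * (w a * F a) * (m b * w b) = (m' a * m b) * (w a * w b) * F a := by ring
          _ ≤ (m' (a ⊓ b) * m (a ⊔ b)) * (w (a ⊓ b) * w (a ⊔ b)) * F a :=
              mul_le_mul_of_nonneg_right (mul_le_mul hmm1 hww hw2 hmm) h0
          _ ≤ (m' (a ⊓ b) * m (a ⊔ b)) * (w (a ⊓ b) * w (a ⊔ b)) * F (a ⊔ b) :=
              mul_le_mul_of_nonneg_left hle (mul_nonneg hmm hw3)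
          _ = m' (a ⊓ b) * w (a ⊓ b) * (m (a ⊔ b) * (w (a ⊔ b) * F (a ⊔ b))) := by ring
      · have h2 : f₂ b = 0 := by rw [hf₂]; exact if_neg hb
        rw [h2, mul_zero]
        exact mul_nonneg (p3 _) (p4 _)
    · have h1 : f₁ a = 0 := by rw [hf₁]; exact if_neg ha
      rw [h1, zero_mul]
      exact mul_nonneg (p3 _) (p4 _)
  have hfour := four_functions_theorem f₁ f₂ f₃ f₄ p1 p2 p3 p4 hkey S' S
  have s1 : ∑ a ∈ S', f₁ a = ∑ ξ ∈ S', m' ξ * (w ξ * F ξ) := by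
    refine Finset.sum_congr rfl fun a ha => ?_
    rw [hf₁]
    exact if_pos ha
  have s2 : ∑ a ∈ S, f₂ a = ∑ ξ ∈ S, m ξ * w ξ := by
    refine Finset.sum_congr rfl fun a ha => ?_
    rw [hf₂]
    exact if_pos ha
  have s3 : ∀ R : Finset (V → ℤ), ∑ a ∈ R, f₃ a ≤ ∑ ξ ∈ S', m' ξ * w ξ := by
    intro R
    rw [hf₃, ← Finset.sum_filter]
    exact Finset.sum_le_sum_of_subset_of_nonneg (fun a ha => (Finset.mem_filter.1 ha).2)
      (fun a _ _ => mul_nonneg (hm0' _) (hw0 _))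
  have s4 : ∀ R : Finset (V → ℤ), ∑ a ∈ R, f₄ a ≤ ∑ ξ ∈ S, m ξ * (w ξ * F ξ) := by
    intro R
    rw [hf₄, ← Finset.sum_filter]
    exact Finset.sum_le_sum_of_subset_of_nonneg (fun a ha => (Finset.mem_filter.1 ha).2)
      (fun a ha _ => mul_nonneg (hm0 _) (mul_nonneg (hw0 _) (hF.nonneg _)))
  rw [e1, e1', e2, e2', ← s1, ← s2]
  refine hfour.trans ?_
  exact mul_le_mul (s3 _) (s4 _) (Finset.sum_nonneg fun a _ => p4 a)
    (Finset.sum_nonneg fun a _ => mul_nonneg (hm0' _) (hw0 _))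

end WZ
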