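import Pool.Agent.Helper78.WZ.Ub

/-!
# Block WZ (MP_973bc8_pr): the floating measure conditioned on zeros is the limit of the zero boundary
measures with the same zeros
-/

open Finset RP4 DV SW Filter Topology

namespace WZ

section

variable {D S s : Finset V} {E : (V → ℤ) → Prop} {w : V}

open Classical in
/-- the sum over the levels for an event with a zero at `w` -/
lemma sumL_pin (hwD : w ∈ D) (hwp : Even (par w)) (hE : ∀ g, E g → g w = 0) (F : (V → ℤ) → ℝ) :
    sumL D E F = ∑ h ∈ Om D, (if E (fun v => h v - h w) then F (fun v => h v - h w) else 0) := by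
  unfold sumL
  refine Finset.sum_congr rfl fun h hh => ?_
  obtain ⟨j, hj⟩ : ∃ j : ℤ, h w = 2 * j := by
    have h1 := (mem_Om.1 hh).1.par w hwD
    rw [Int.even_iff] at h1 hwp
    exact ⟨h w / 2, by omega⟩
  have h2 : lev j h = fun v => h v - h w := by
    funext v
    show h v - 2 * j = h v - h w
    rw [hj]
  rw [finsum_eq_single _ j, h2]
  intro k hk
  rw [if_neg]
  intro hcon
  have h3 := hE _ hcon
  have h4 : h w - 2 * k = 0 := h3
  apply hk
  omega

private lemma trans_dom (hwp : Even (par w)) : Tendsto (fun D => img (RP4.trans (-w)) D) dom dom := by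
  intro P hP
  have hP' : ∀ᶠ D in dom, D ∈ P := hP
  rw [eventually_dom] at hP'
  obtain ⟨F, hF⟩ := hP'
  change ∀ᶠ D in dom, img (RP4.trans (-w)) D ∈ P
  rw [eventually_dom]
  refine ⟨img (RP4.trans w) F, fun D hD hp => hF _ ?_ ?_⟩
  · intro v hv
    unfold img
    rw [Finset.mem_map]
    refine ⟨v + w, hD ?_, ?_⟩
    · unfold img
      rw [Finset.mem_map]
      exact ⟨v, hv, by simp [RP4.trans]⟩
    · simp [RP4.trans]
  · have h0 : BdryPar D (par w) := by
      intro v hv
      have h1 := hp v hv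
      rw [Int.even_iff] at h1 hwp ⊢
      omega
    have h1 := (bdryPar_img (trans_lsym (-w)) D w).2 h0
    have h2 : par (RP4.trans (-w) w) = 0 := by simp [RP4.trans, par]
    rwa [h2] at h1

/-- limit of the measures pinned at an even site -/
lemma pin_tendsto (hwp : Even (par w)) {F : (V → ℤ) → ℝ}
    (hF : ∀ g g' : V → ℤ, (∀ x ∈ s, g x = g' x) → F g = F g') :
    Tendsto (fun D => avg (Pin D w 0) F) dom (𝓝 (PinLim (fun g => F (fun v => g (v - w))))) := by
  classical
  have h0 := pinLim_tendsto (s.image (fun v => v - w)) (fun g => F (fun v => g (v - w)))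
    (fun g g' hg => hF _ _ fun x hx => hg _ (Finset.mem_image_of_mem _ hx))
  refine (h0.comp (trans_dom hwp)).congr fun D => ?_
  have h1 := avg_Pin_img (trans_lsym (-w)) D w 0 F
  have h2 : RP4.trans (-w) w = (0, 0) := by simp [RP4.trans]; rfl
  have h3 : ∀ v, RP4.trans (-w) v = v - w := fun v => by simp [RP4.trans, sub_eq_add_neg]
  rw [h2] at h1
  simp only [h3] at h1
  exact h1

open Classical in
/-- the floating measure of an event with a zero at the even site `w` is a limit of the pinned measures -/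
theorem M_pin_tendsto (hd : Deloc) (hwp : Even (par w)) {t : Finset V} (hE : ∀ g, E g → g w = 0)
    (hp : PnE t E) {F : (V → ℤ) → ℝ} (hF : ∀ g g' : V → ℤ, (∀ x ∈ s, g x = g' x) → F g = F g') :
    Tendsto (fun D => avg (Pin D w 0) fun g => if E g then F g else 0) dom (𝓝 (M (ev E F)).re) := by
  have := dom_neBot
  have hG : ∀ g g' : V → ℤ, (∀ x ∈ t ∪ s, g x = g' x) →
      (if E g then F g else 0) = (if E g' then F g' else 0) := by
    intro g g' hg
    have h1 := hp.loc g g' fun x hx => hg x (Finset.mem_union_left _ hx)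
    have h2 := hF g g' fun x hx => hg x (Finset.mem_union_right _ hx)
    simp only [h1, h2]
  have h1 := pin_tendsto (s := t ∪ s) hwp hG
  have h2 := loc_limit hd w (t ∪ s) (fun g => if E g then F g else 0) hG
  have h3 := M_ev_tendsto (s := s) hd hp hF
  have h4 : Tendsto (fun D => avg (Om D) (fun h => (fun g : V → ℤ => if E g then F g else 0)
      (fun v => h v - h w))) dom (𝓝 (M (ev E F)).re) := by
    refine h3.congr' (eventually_dom.2 ⟨{w}, fun D hD _ => ?_⟩)
    rw [sumL_pin (hD (Finset.mem_singleton_self w)) hwp hE F]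
    rfl
  rw [tendsto_nhds_unique h2 h4] at h1
  exact h1

lemma mem_Pin_even (hwp : Even (par w)) {g : V → ℤ} :
    g ∈ Pin D w 0 ↔ IsHom D 0 g ∧ g w = 0 ∧ ∀ v ∈ bdry D, g v = 0 := by
  rw [mem_Pin]
  have h1 : IsHom D (par w) g ↔ IsHom D 0 g := by
    constructor
    · intro h
      refine ⟨h.off, fun v hv => ?_, h.step⟩
      have h2 := h.par v hv
      rw [Int.even_iff] at h2 hwp ⊢
      omega
    · intro h
      refine ⟨h.off, fun v hv => ?_, h.step⟩
      have h2 := h.par v hv
      rw [Int.even_iff] at h2 hwp ⊢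
      omega
  rw [h1]

open Classical in
/-- the measures with zeros on the boundary and on `S`, as conditioned pinned measures -/
lemma avg_Zs_pin (hw : w ∈ S) (hwp : Even (par w)) (F : (V → ℤ) → ℝ) :
    avg (Zs D 0 (bdry D ∪ S)) F =
      avg (Pin D w 0) (fun g => if Zer (S : Set V) g then F g else 0) /
        avg (Pin D w 0) (fun g => if Zer (S : Set V) g then 1 else 0) := by
  have h1 : Zs D 0 (bdry D ∪ S) = (Pin D w 0).filter fun g => Zer (S : Set V) g := by
    ext g
    rw [mem_Zs Finset.subset_union_left, Finset.mem_filter, mem_Pin_even hwp]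
    constructor
    · rintro ⟨h2, h3⟩
      exact ⟨⟨h2, h3 w (Finset.mem_union_right _ hw), fun v hv => h3 v (Finset.mem_union_left _ hv)⟩,
        fun v hv => h3 v (Finset.mem_union_right _ (Finset.mem_coe.1 hv))⟩
    · rintro ⟨⟨h2, -, h4⟩, h5⟩
      refine ⟨h2, fun v hv => ?_⟩
      rcases Finset.mem_union.1 hv with hv | hv
      · exact h4 v hv
      · exact h5 v (Finset.mem_coe.2 hv)
  unfold avg
  rw [h1, ← Finset.sum_filter, ← Finset.sum_filter, Finset.sum_const, nsmul_eq_mul, mul_one]
  by_cases h0 : ((Pin D w 0).card : ℝ) = 0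
  · have h2 : (Pin D w 0).card = 0 := by exact_mod_cast h0
    rw [Finset.card_eq_zero.1 h2]
    simp
  · rw [div_div_div_cancel_right₀ h0]

/-- **the limit of the zero boundary measures with zeros on `S`** -/
theorem zs_tendsto (hd : Deloc) (hS : S.Nonempty) (hSp : ∀ v ∈ S, Even (par v)) {F : (V → ℤ) → ℝ}
    (hF : ∀ g g' : V → ℤ, (∀ x ∈ s, g x = g' x) → F g = F g')
    (hpos : (M (ev (Zer (S : Set V)) fun _ => 1)).re ≠ 0) :
    Tendsto (fun D => avg (Zs D 0 (bdry D ∪ S)) F) dom
      (𝓝 ((M (ev (Zer (S : Set V)) F)).re / (M (ev (Zer (S : Set V)) fun _ => 1)).re)) := by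
  classical
  obtain ⟨w, hw⟩ := hS
  have hwp := hSp w hw
  have hE : ∀ g, Zer (S : Set V) g → g w = 0 := fun g hg => hg w (Finset.mem_coe.2 hw)
  have hp : PnE S (Zer (S : Set V)) := by
    refine ⟨fun g g' h => zer_loc fun v hv => h v (Finset.mem_coe.1 hv), 0, fun g hg => ⟨w, hw, ?_⟩⟩
    rw [hE g hg, abs_zero]
  have h1 := M_pin_tendsto (s := s) hd hwp hE hp hF
  have h2 := M_pin_tendsto (s := s) hd hwp hE hp (F := fun _ => 1) fun _ _ _ => rfl
  refine (h1.div h2 hpos).congr fun D => ?_
  exact (avg_Zs_pin hw hwp F).symm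

end

end WZ
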