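import Pool.Agent.Helper78.WZ.Wf

/-!
# Block WZ (MP_973bc8_pr): comparison of two events in the floating measure
-/

open Finset RP4 DV SW Filter Topology

namespace WZ

/-- two local pinned events of the absolute value; for height functions on large domains the infimum keeps
`E'` and the supremum keeps `E` -/
structure Cmp (t : Finset V) (E' E : (V → ℤ) → Prop) : Prop where
  pn' : PnE t E'
  pn : PnE t E
  abs' : ∀ g, E' (absf g) ↔ E' g
  abs : ∀ g, E (absf g) ↔ E g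
  lat : ∀ D : Finset V, t ⊆ D → ∀ ξ' ξ : V → ℤ, IsHom D 0 ξ' → IsHom D 0 ξ → (∀ v, 0 ≤ ξ' v) →
    (∀ v, 0 ≤ ξ v) → E' ξ' → E ξ → E' (ξ' ⊓ ξ) ∧ E (ξ' ⊔ ξ)

section

variable {n : ℕ} {D s t : Finset V} {E E' : (V → ℤ) → Prop}

open Classical in
lemma sum_Om_lev {P : (V → ℤ) → Prop} (hP : ∀ g g' : V → ℤ, (∀ x ∈ D, g x = g' x) → (P g ↔ P g'))
    {G : (V → ℤ) → ℝ} (hG : ∀ g g' : V → ℤ, (∀ x ∈ D, g x = g' x) → G g = G g') (k : ℤ) :
    ∑ h ∈ Om D, (if P (lev k h) then G (lev k h) else 0) = ∑ g ∈ (Lk D k).filter P, G g := by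
  rw [Finset.sum_filter, sum_Lk D k (fun g => if P g then G g else 0)]
  refine Finset.sum_congr rfl fun h _ => ?_
  have h2 : P (lev k h) ↔ P (trc D (lev k h)) := hP _ _ fun x hx => (trc_in hx).symm
  have h3 : G (lev k h) = G (trc D (lev k h)) := hG _ _ fun x hx => (trc_in hx).symm
  simp only [h2, h3]

/-- a symmetric range of levels -/
lemma exists_N {P P' : (V → ℤ) → Prop} (h : PnE t P) (h' : PnE t P') (D : Finset V) :
    ∃ N : ℕ, (∀ g ∈ Om D, ∀ k, P (lev k g) → k ∈ Finset.Icc (-(N : ℤ)) N) ∧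
      ∀ g ∈ Om D, ∀ k, P' (lev k g) → k ∈ Finset.Icc (-(N : ℤ)) N := by
  obtain ⟨T, hT⟩ := h.exists_T D
  obtain ⟨T', hT'⟩ := h'.exists_T D
  refine ⟨∑ k ∈ T ∪ T', k.natAbs, ?_, ?_⟩
  · intro g hg k hk
    have h1 : k ∈ T ∪ T' := Finset.mem_union_left _ (hT g hg k hk)
    have h2 : k.natAbs ≤ ∑ k ∈ T ∪ T', k.natAbs :=
      Finset.single_le_sum (f := fun k : ℤ => k.natAbs) (fun _ _ => Nat.zero_le _) h1
    rw [Finset.mem_Icc]
    omega
  · intro g hg k hk
    have h1 : k ∈ T ∪ T' := Finset.mem_union_right _ (hT' g hg k hk)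
    have h2 : k.natAbs ≤ ∑ k ∈ T ∪ T', k.natAbs :=
      Finset.single_le_sum (f := fun k : ℤ => k.natAbs) (fun _ _ => Nat.zero_le _) h1
    rw [Finset.mem_Icc]
    omega

/-- an increasing local function, all levels -/
theorem sumL_cmp_inc (h : Cmp t E' E) (ht : t ⊆ D) (hb : (bdry D).Nonempty) {F : (V → ℤ) → ℝ}
    (hF : IncF F) (hFl : ∀ g g' : V → ℤ, (∀ x ∈ D, g x = g' x) → F g = F g') :
    sumL D E' F * sumL D E (fun _ => 1) ≤ sumL D E F * sumL D E' (fun _ => 1) := by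
  classical
  obtain ⟨N, hN, hN'⟩ := exists_N h.pn h.pn' D
  have hl : ∀ g g' : V → ℤ, (∀ x ∈ D, g x = g' x) → (E g ↔ E g') :=
    fun g g' hg => h.pn.loc g g' fun x hx => hg x (ht hx)
  have hl' : ∀ g g' : V → ℤ, (∀ x ∈ D, g x = g' x) → (E' g ↔ E' g') :=
    fun g g' hg => h.pn'.loc g g' fun x hx => hg x (ht hx)
  rw [sumL_eq _ hN', sumL_eq _ hN, sumL_eq _ hN, sumL_eq _ hN']
  rw [Finset.sum_congr rfl fun k _ => sum_Om_lev hl' hFl k,
    Finset.sum_congr rfl fun k _ => sum_Om_lev hl (G := fun _ => 1) (fun _ _ _ => rfl) k,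
    Finset.sum_congr rfl fun k _ => sum_Om_lev hl hFl k,
    Finset.sum_congr rfl fun k _ => sum_Om_lev hl' (G := fun _ => 1) (fun _ _ _ => rfl) k]
  simp only [Finset.sum_const, nsmul_eq_mul, mul_one]
  exact levels_fkg hb N h.abs h.abs' (h.lat D ht) hF

/-- a product of heights at an even number of sites, all levels -/
theorem sumL_cmp_pt (h : Cmp t E' E) (ht : t ⊆ D) (hb : (bdry D).Nonempty) (hn : Even n)
    {p : Fin n → V} (hpD : ∀ i, p i ∈ D) :
    sumL D E' (fun g => ∏ i, (g (p i) : ℝ)) * sumL D E (fun _ => 1) ≤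
      sumL D E (fun g => ∏ i, (g (p i) : ℝ)) * sumL D E' (fun _ => 1) := by
  classical
  obtain ⟨N, hN, hN'⟩ := exists_N h.pn h.pn' D
  have hl : ∀ g g' : V → ℤ, (∀ x ∈ D, g x = g' x) → (E g ↔ E g') :=
    fun g g' hg => h.pn.loc g g' fun x hx => hg x (ht hx)
  have hl' : ∀ g g' : V → ℤ, (∀ x ∈ D, g x = g' x) → (E' g ↔ E' g') :=
    fun g g' hg => h.pn'.loc g g' fun x hx => hg x (ht hx)
  have hFl : ∀ g g' : V → ℤ, (∀ x ∈ D, g x = g' x) →
      ∏ i, (g (p i) : ℝ) = ∏ i, (g' (p i) : ℝ) :=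
    fun g g' hg => Finset.prod_congr rfl fun i _ => by rw [hg _ (hpD i)]
  rw [sumL_eq _ hN', sumL_eq _ hN, sumL_eq _ hN, sumL_eq _ hN']
  rw [Finset.sum_congr rfl fun k _ => sum_Om_lev hl' (G := fun g => ∏ i, (g (p i) : ℝ)) hFl k,
    Finset.sum_congr rfl fun k _ => sum_Om_lev hl (G := fun _ => 1) (fun _ _ _ => rfl) k,
    Finset.sum_congr rfl fun k _ => sum_Om_lev hl (G := fun g => ∏ i, (g (p i) : ℝ)) hFl k,
    Finset.sum_congr rfl fun k _ => sum_Om_lev hl' (G := fun _ => 1) (fun _ _ _ => rfl) k]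
  simp only [Finset.sum_const, nsmul_eq_mul, mul_one]
  rw [Finset.sum_congr rfl fun k _ => prod_clb_filter hn (A := Lk D k) (fun g => mem_Lk) h.abs'
      (A' := (Lk D k).filter E') (fun g => Finset.mem_filter) (p := p),
    Finset.sum_congr rfl fun k _ => prod_clb_filter hn (A := Lk D k) (fun g => mem_Lk) h.abs
      (A' := (Lk D k).filter E) (fun g => Finset.mem_filter) (p := p)]
  exact levels_fkg hb N h.abs h.abs' (h.lat D ht) (clb_incF (bdry D) p)

/-- linearity -/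
lemma sumL_lin {P : (V → ℤ) → Prop} (hP : PnE t P) {ι : Type*} (I : Finset ι) (c : ι → ℝ)
    (G : ι → (V → ℤ) → ℝ) :
    sumL D P (fun h => ∑ j ∈ I, c j * G j h) = ∑ j ∈ I, c j * sumL D P (G j) := by
  classical
  obtain ⟨T, hT⟩ := hP.exists_T D
  rw [sumL_eq _ hT]
  have h1 : ∀ j ∈ I, c j * sumL D P (G j) =
      ∑ k ∈ T, ∑ g ∈ Om D, (if P (lev k g) then c j * G j (lev k g) else 0) := by
    intro j _
    rw [sumL_eq _ hT, Finset.mul_sum]
    refine Finset.sum_congr rfl fun k _ => ?_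
    rw [Finset.mul_sum]
    refine Finset.sum_congr rfl fun g _ => ?_
    split_ifs
    · rfl
    · rw [mul_zero]
  symm
  rw [Finset.sum_congr rfl h1, Finset.sum_comm]
  refine Finset.sum_congr rfl fun k _ => ?_
  rw [Finset.sum_comm]
  refine Finset.sum_congr rfl fun g _ => ?_
  split_ifs
  · rfl
  · rw [Finset.sum_const_zero]

/-- a product of an even number of linear observables with nonnegative weights, all levels -/
theorem sumL_cmp (h : Cmp t E' E) (ht : t ⊆ D) (hs : s ⊆ D) (hb : (bdry D).Nonempty) (hn : Even n)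
    {m : Fin n → V → ℝ} (hm : ∀ i x, 0 ≤ m i x) :
    sumL D E' (fun g => ∏ i, lo s (m i) g) * sumL D E (fun _ => 1) ≤
      sumL D E (fun g => ∏ i, lo s (m i) g) * sumL D E' (fun _ => 1) := by
  simp only [prod_lo]
  rw [sumL_lin h.pn', sumL_lin h.pn, Finset.sum_mul, Finset.sum_mul]
  refine Finset.sum_le_sum fun p hp => ?_
  rw [mul_assoc, mul_assoc]
  refine mul_le_mul_of_nonneg_left ?_ (Finset.prod_nonneg fun i _ => hm i _)
  exact sumL_cmp_pt h ht hb hn fun i => hs (Fintype.mem_piFinset.1 hp i)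

lemma bdry_nonempty (hD : D.Nonempty) : (bdry D).Nonempty := by
  classical
  obtain ⟨v, hv, hmax⟩ := D.exists_max_image (fun v => v.1) hD
  refine ⟨v, mem_bdry.2 ⟨hv, (v.1 + 1, v.2), ?_, fun hu => ?_⟩⟩
  · unfold Adj
    simp
  · have h1 := hmax _ hu
    simp at h1

/-- passage to the floating measure -/
lemma M_of_sumL (hd : Deloc) (h : Cmp t E' E) {F : (V → ℤ) → ℝ}
    (hF : ∀ g g' : V → ℤ, (∀ x ∈ s, g x = g' x) → F g = F g')
    (key : ∀ D : Finset V, t ⊆ D → s ⊆ D → (bdry D).Nonempty →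
      sumL D E' F * sumL D E (fun _ => 1) ≤ sumL D E F * sumL D E' (fun _ => 1)) :
    (M (ev E' F)).re * (M (ev E fun _ => 1)).re ≤ (M (ev E F)).re * (M (ev E' fun _ => 1)).re := by
  classical
  have := dom_neBot
  have h1 := M_ev_tendsto (s := s) hd h.pn' hF
  have h2 := M_ev_tendsto (s := s) hd h.pn (F := fun _ => 1) fun _ _ _ => rfl
  have h3 := M_ev_tendsto (s := s) hd h.pn hF
  have h4 := M_ev_tendsto (s := s) hd h.pn' (F := fun _ => 1) fun _ _ _ => rfl
  refine le_of_tendsto_of_tendsto (h1.mul h2) (h3.mul h4)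
    (eventually_dom.2 ⟨insert (0, 0) (s ∪ t), fun D' hD' _ => ?_⟩)
  beta_reduce
  rw [div_mul_div_comm, div_mul_div_comm]
  refine div_le_div_of_nonneg_right ?_ (by positivity)
  refine key D' (fun x hx => hD' (by simp [hx])) (fun x hx => hD' (by simp [hx])) ?_
  exact bdry_nonempty ⟨(0, 0), hD' (by simp)⟩

/-- comparison in the floating measure, products of linear observables -/
theorem M_cmp (hd : Deloc) (h : Cmp t E' E) (hn : Even n) {m : Fin n → V → ℝ}
    (hm : ∀ i x, 0 ≤ m i x) :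
    (M (ev E' fun g => ∏ i, lo s (m i) g)).re * (M (ev E fun _ => 1)).re ≤
      (M (ev E fun g => ∏ i, lo s (m i) g)).re * (M (ev E' fun _ => 1)).re :=
  M_of_sumL hd h (s := s) (fun g g' hg => Finset.prod_congr rfl fun i _ => lo_congr hg)
    fun _ ht hs hb => sumL_cmp h ht hs hb hn hm

/-- comparison in the floating measure, increasing functions -/
theorem M_cmp_inc (hd : Deloc) (h : Cmp t E' E) {F : (V → ℤ) → ℝ} (hF : IncF F)
    (hFl : ∀ g g' : V → ℤ, (∀ x ∈ s, g x = g' x) → F g = F g') :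
    (M (ev E' F)).re * (M (ev E fun _ => 1)).re ≤ (M (ev E F)).re * (M (ev E' fun _ => 1)).re :=
  M_of_sumL hd h (s := s) hFl
    fun _ ht hs hb => sumL_cmp_inc h ht hb hF fun g g' hg => hFl g g' fun x hx => hg x (hs hx)

end

end WZ
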