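import Pool.Agent.Helper78.WZ.Mz

/-!
# Block WZ (MP_973bc8_pr): upper bound by the domain with additional zeros
-/

open Finset RP4 DV SW Filter Topology

namespace WZ

private lemma ub_nn {n : ℕ} {p : Fin n → V} {D D' W : Finset V} (hD : BdryPar D 0) (hDD' : D ⊆ D')
    (hWD : W ⊆ D) (hWp : ∀ v ∈ W, Even (par v))
    {b : ℤ} (hb : 0 ≤ b) {A : Finset (V → ℤ)}
    (hA : ∀ g, g ∈ A ↔ IsHom D' 0 g ∧ ∀ v ∈ bdry D', g v = b)
    {E : (V → ℤ) → Prop} (hE : Dec E) (hEW : ∀ g ∈ A, E g → ∀ v ∈ W, g v = 0)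
    (hblk : ∀ g ∈ A, E g → ∀ i, ∀ v ∉ core D, ¬ Conn g (p i) v)
    {A' : Finset (V → ℤ)} (hA' : ∀ g, g ∈ A' ↔ g ∈ A ∧ E g) :
    ∑ g ∈ A', clm p g ≤ avg (Zs D 0 (bdry D ∪ W)) (clm p) * A'.card := by
  classical
  -- the fibres
  have h1 := Finset.sum_fiberwise_of_maps_to (s := A') (t := A'.image (okey D)) (g := okey D)
    (fun g hg => Finset.mem_image_of_mem _ hg) (clm p)
  have h2 := Finset.card_eq_sum_card_fiberwise (s := A') (t := A'.image (okey D)) (f := okey D)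
    (fun g hg => Finset.mem_image_of_mem _ hg)
  rw [← h1, h2, Nat.cast_sum, Finset.mul_sum]
  refine Finset.sum_le_sum fun ξ hξ => ?_
  obtain ⟨g0, hg0, rfl⟩ := Finset.mem_image.1 hξ
  have hg0A := ((hA' g0).1 hg0).1
  have hg0E := ((hA' g0).1 hg0).2
  have hg0H := ((hA g0).1 hg0A).1
  have hg0W := hEW g0 hg0A hg0E
  set ξ := okey D g0 with hξdef
  have hξW : ∀ v ∈ W, ξ v = 0 := by
    intro v hv
    rw [hξdef]
    by_cases hO : v ∈ Out D g0
    · rw [okey_in hO, hg0W v hv, abs_zero]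
    · exact okey_out hO
  set F := A.filter (fun g => okey D g = ξ ∧ ∀ v ∈ W, g v = 0) with hF
  set F' := A'.filter (fun g => okey D g = ξ) with hF'
  have hFmem : ∀ g, g ∈ F ↔ g ∈ A ∧ okey D g = ξ ∧ ∀ v ∈ W, g v = 0 := fun g => Finset.mem_filter
  have hF'mem : ∀ g, g ∈ F' ↔ g ∈ F ∧ E g := by
    intro g
    rw [hFmem, hF', Finset.mem_filter, hA' g]
    constructor
    · rintro ⟨⟨h3, h4⟩, h5⟩
      exact ⟨⟨h3, h5, hEW g h3 h4⟩, h4⟩
    · rintro ⟨⟨h3, h5, -⟩, h4⟩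
      exact ⟨⟨h3, h4⟩, h5⟩
  have hg0F' : g0 ∈ F' := Finset.mem_filter.2 ⟨hg0, rfl⟩
  have hFfam : Fam D' 0 (bdry D' : Set V) (Tb (Zk D ξ ∪ (W : Set V)) ξ) F := by
    intro g
    rw [hFmem]
    constructor
    · rintro ⟨hg, hk, hgW⟩
      have hgA := (hA g).1 hg
      refine ⟨hgA.1, fun v hv => ?_, fun v hv => ?_⟩
      · show |g v| = ξ v
        rcases hv with hv | hv
        · rw [← hk] at hv ⊢
          exact abs_Zk hv
        · rw [hξW v (Finset.mem_coe.1 hv), hgW v (Finset.mem_coe.1 hv), abs_zero]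
      · rw [hgA.2 v hv]
        exact hb
    · rintro ⟨hg1, hg2, hg3⟩
      have hg2' : ∀ v ∈ Zk D ξ, |g v| = ξ v := fun v hv => hg2 v (Or.inl hv)
      refine ⟨(hA g).2 ⟨hg1, fun v hv => ?_⟩, okey_eq hg2', fun v hv => ?_⟩
      · have hvc : v ∉ core D := fun h => core_not_bdry hDD' h hv
        have hvZ : v ∈ Zk D ξ := Or.inr (Or.inl hvc)
        have h3 := hg2' v hvZ
        have h4 : |g0 v| = ξ v := abs_Zk hvZ
        rw [((hA g0).1 hg0A).2 v hv, abs_of_nonneg hb] at h4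
        rw [abs_of_nonneg (hg3 v hv), ← h4] at h3
        exact h3
      · have h3 : |g v| = ξ v := hg2 v (Or.inr (Finset.mem_coe.2 hv))
        rw [hξW v hv] at h3
        exact abs_eq_zero.1 h3
  have hne' : F'.Nonempty := ⟨g0, hg0F'⟩
  have hne : F.Nonempty := ⟨g0, ((hF'mem g0).1 hg0F').1⟩
  have s1 : avg F' (clm p) ≤ avg F (clm p) :=
    avg_filter_dec hFfam (lat_Tb _ _ _ _) hE hF'mem hne' (clm_incF p)
  -- the inner set
  set S : Set V := {v | v ∈ core D ∧ v ∉ W ∧ ξ v = 0 ∧ ∀ u, ξ u ≠ 0 → ¬ Adj u v} with hS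
  set Z2 : Finset V := (bdry D ∪ W) ∪
    D.filter (fun v => Even (par v) ∧ (ξ v ≠ 0 ∨ ∃ u, ξ u ≠ 0 ∧ Adj u v)) with hZ2
  have hZ1b : bdry D ⊆ bdry D ∪ W := Finset.subset_union_left
  have hZ12 : bdry D ∪ W ⊆ Z2 := Finset.subset_union_left
  have hZ2b : bdry D ⊆ Z2 := hZ1b.trans hZ12
  have hZ2D : Z2 ⊆ D := Finset.union_subset (Finset.union_subset (bdry_subset D) hWD)
    (Finset.filter_subset _ _)
  have hZ2p : ∀ v ∈ Z2, Even (par v - 0) := by
    intro v hv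
    rcases Finset.mem_union.1 hv with hv | hv
    · rcases Finset.mem_union.1 hv with hv | hv
      · exact hD v hv
      · rw [sub_zero]
        exact hWp v hv
    · rw [sub_zero]
      exact (Finset.mem_filter.1 hv).2.1
  have hnS : ∀ v ∈ core D, v ∉ S → v ∈ W ∨ ξ v ≠ 0 ∨ ∃ u, ξ u ≠ 0 ∧ Adj u v := by
    intro v hv hvS
    by_contra hcon
    push Not at hcon
    exact hvS ⟨hv, hcon.1, hcon.2.1, fun u hu => hcon.2.2 u hu⟩
  -- a zero of the key next to the outer clusters is an even site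
  have heven : ∀ v ∈ D, ξ v = 0 → v ∈ Zk D ξ → Even (par v) := by
    intro v hv h0 hvZ
    refine Up_zero_even hg0H (hDD' hv) ?_
    have h4 : |g0 v| = ξ v := abs_Zk hvZ
    rw [h0] at h4
    exact abs_eq_zero.1 h4
  have sep1 : Sep D' (bdry D' : Set V) (Zk D ξ ∪ (W : Set V)) ξ S := by
    refine ⟨fun u hu => hDD' (mem_core.1 hu.1).1, fun u hu v huv => hDD' (core_nb hu.1 huv),
      fun u hu => ?_, fun u hu => core_not_bdry hDD' hu.1, fun u hu v huv hv => ?_⟩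
    · rintro ((h | h | ⟨w, hw, hwu⟩) | h)
      · exact h hu.2.2.1
      · exact h hu.1
      · exact hu.2.2.2 w hw hwu
      · exact hu.2.1 (Finset.mem_coe.1 h)
    · have h0 : ξ v = 0 := by
        by_contra h0
        exact hu.2.2.2 v h0 (adj_symm huv)
      refine ⟨?_, h0⟩
      by_cases hvc : v ∈ core D
      · rcases hnS v hvc hv with h | h | h
        · exact Or.inr (Finset.mem_coe.2 h)
        · exact absurd h0 h
        · exact Or.inl (Or.inr (Or.inr h))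
      · exact Or.inl (Or.inr (Or.inl hvc))
  have sep2 : Sep D ∅ (Z2 : Set V) 0 S := by
    refine ⟨fun u hu => (mem_core.1 hu.1).1, fun u hu v huv => core_nb hu.1 huv,
      fun u hu h => ?_, fun u _ => Set.notMem_empty u, fun u hu v huv hv => ⟨?_, rfl⟩⟩
    · rcases Finset.mem_union.1 (Finset.mem_coe.1 h) with h | h
      · rcases Finset.mem_union.1 h with h | h
        · exact (mem_core.1 hu.1).2 h
        · exact hu.2.1 h
      · rcases (Finset.mem_filter.1 h).2.2 with h | ⟨w, hw, hwu⟩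
        · exact h hu.2.2.1
        · exact hu.2.2.2 w hw hwu
    · have hvD := core_nb hu.1 huv
      have hvZ := (sep1.bd u hu v huv hv)
      refine Finset.mem_coe.2 ?_
      by_cases hvW : v ∈ W
      · exact hZ12 (Finset.mem_union_right _ hvW)
      have hvZk : v ∈ Zk D ξ := hvZ.1.resolve_right fun h => hvW (Finset.mem_coe.1 h)
      refine Finset.mem_union.2 ?_
      by_cases hvc : v ∈ core D
      · right
        exact Finset.mem_filter.2 ⟨hvD, heven v hvD hvZ.2 hvZk, (hnS v hvc hv).resolve_left hvW⟩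
      · left
        by_contra hb'
        exact hvc (mem_core.2 ⟨hvD, fun h => hb' (hZ1b h)⟩)
  have hneZ : (Zs D 0 Z2).Nonempty := ⟨flat D 0, flat_mem_Zs hZ2b hZ2D hZ2p⟩
  have hnoR : ∀ i, ξ (p i) = 0 := by
    intro i
    by_contra hcon
    obtain ⟨u, hu, huv⟩ := okey_ne.1 hcon
    exact hblk g0 hg0A hg0E i u hu (Up_symm huv)
  have s2 : avg F (clm p) = avg (Zs D 0 Z2) (clm p) := by
    refine markov_clm hFfam (fam_Zs hZ2b) sep1 sep2 hne hneZ fun i => ?_
    by_cases hi : p i ∈ S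
    · exact Or.inl hi
    · right
      by_cases hiW : p i ∈ W
      · constructor
        · intro g hg
          exact ((hFmem g).1 hg).2.2 _ hiW
        · intro g hg
          rw [mem_Zs hZ2b] at hg
          exact hg.2 _ (hZ12 (Finset.mem_union_right _ hiW))
      have hiZ : p i ∈ Zk D ξ := by
        by_cases hc : p i ∈ core D
        · rcases hnS _ hc hi with h | h | h
          · exact absurd h hiW
          · exact absurd (hnoR i) h
          · exact Or.inr (Or.inr h)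
        · exact Or.inr (Or.inl hc)
      constructor
      · intro g hg
        have h3 : |g (p i)| = ξ (p i) := ((hFfam g).1 hg).2.1 _ (Or.inl hiZ)
        rw [hnoR i] at h3
        exact abs_eq_zero.1 h3
      · intro g hg
        rw [mem_Zs hZ2b] at hg
        by_cases hiD : p i ∈ D
        · refine hg.2 _ ?_
          by_cases hc : p i ∈ core D
          · exact Finset.mem_union.2 (Or.inr (Finset.mem_filter.2
              ⟨hiD, heven _ hiD (hnoR i) hiZ, (hnS _ hc hi).resolve_left hiW⟩))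
          · exact hZ2b (by
              by_contra hb'
              exact hc (mem_core.2 ⟨hiD, hb'⟩))
        · exact hg.1.off _ hiD
  have s3 : avg (Zs D 0 Z2) (clm p) ≤ avg (Zs D 0 (bdry D ∪ W)) (clm p) := by
    have hE2 : Dec (fun g : V → ℤ => ∀ v ∈ Z2, g v = 0) := by
      refine ⟨fun g => ?_, fun g g' h0 hle h v hv => ?_⟩
      · refine forall₂_congr fun v _ => ?_
        show |g v| = 0 ↔ g v = 0
        exact abs_eq_zero
      · have h3 := h v hv
        have h4 := hle v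
        have h5 := h0 v
        omega
    refine avg_filter_dec (fam_Zs hZ1b) (lat_Tb _ _ _ _) hE2
      (fun g => ?_) hneZ (clm_incF p)
    rw [mem_Zs hZ2b, mem_Zs hZ1b]
    constructor
    · rintro ⟨h3, h4⟩
      exact ⟨⟨h3, fun v hv => h4 v (hZ12 hv)⟩, h4⟩
    · rintro ⟨⟨h3, -⟩, h4⟩
      exact ⟨h3, h4⟩
  have hcard : (0 : ℝ) < F'.card := by exact_mod_cast hne'.card_pos
  have s4 : ∑ g ∈ F', clm p g = avg F' (clm p) * F'.card := by
    unfold avg
    rw [div_mul_cancel₀ _ hcard.ne']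
  rw [s4]
  exact mul_le_mul_of_nonneg_right (s1.trans (s2.le.trans s3)) hcard.le

/-- `SW.up_clm` with additional zeros -/
theorem ub_clm {n : ℕ} {p : Fin n → V} {D D' W : Finset V} (hD : BdryPar D 0) (hDD' : D ⊆ D')
    (hWD : W ⊆ D) (hWp : ∀ v ∈ W, Even (par v))
    {b : ℤ} {A : Finset (V → ℤ)} (hA : ∀ g, g ∈ A ↔ IsHom D' 0 g ∧ ∀ v ∈ bdry D', g v = b)
    {E : (V → ℤ) → Prop} (hE : Dec E) (hEW : ∀ g, E g → ∀ v ∈ W, g v = 0)
    (hblk : ∀ g ∈ A, E g → ∀ i, ∀ v ∉ core D, ¬ Conn g (p i) v)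
    {A' : Finset (V → ℤ)} (hA' : ∀ g, g ∈ A' ↔ g ∈ A ∧ E g) :
    ∑ g ∈ A', clm p g ≤ avg (Zs D 0 (bdry D ∪ W)) (clm p) * A'.card := by
  classical
  have hEneg : ∀ g, E (-g) ↔ E g := by
    intro g
    rw [← hE.abs (-g), ← hE.abs g]
    have h1 : absf (-g) = absf g := by
      funext v
      exact abs_neg (g v)
    rw [h1]
  rcases le_total 0 b with hb | hb
  · exact ub_nn hD hDD' hWD hWp hb hA hE (fun g _ => hEW g) hblk hA'
  · have h1 := ub_nn (p := p) hD hDD' hWD hWp (b := -b) (by omega)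
      (A := A.map ⟨fun g : V → ℤ => -g, neg_injective⟩) (fun g => ?_) hE (fun g _ => hEW g)
      (fun g hg hEg i v hv hc => ?_)
      (A' := A'.map ⟨fun g : V → ℤ => -g, neg_injective⟩) (fun g => ?_)
    · rwa [sum_clm_neg, Finset.card_map] at h1
    · rw [mem_map_neg, hA]
      constructor
      · rintro ⟨h3, h4⟩
        have h5 := h3.neg
        rw [neg_neg] at h5
        refine ⟨h5, fun v hv => ?_⟩
        have h6 := h4 v hv
        rw [Pi.neg_apply] at h6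
        omega
      · rintro ⟨h3, h4⟩
        refine ⟨h3.neg, fun v hv => ?_⟩
        rw [Pi.neg_apply, h4 v hv]
        omega
    · rw [mem_map_neg] at hg
      refine hblk (-g) hg ((hEneg g).2 hEg) i v hv (conn_neg (g := -g) ?_)
      rwa [neg_neg]
    · rw [mem_map_neg, mem_map_neg, hA', hEneg]

/-- `SW.up_fin` with additional zeros -/
theorem ub_fin {n : ℕ} {p : Fin n → V} {D D' W : Finset V} (hD : BdryPar D 0) (hDD' : D ⊆ D')
    (hWD : W ⊆ D) (hWp : ∀ v ∈ W, Even (par v))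
    {b : ℤ} {A : Finset (V → ℤ)} (hA : ∀ g, g ∈ A ↔ IsHom D' 0 g ∧ ∀ v ∈ bdry D', g v = b)
    {E : (V → ℤ) → Prop} (hE : Dec E) (hEW : ∀ g, E g → ∀ v ∈ W, g v = 0)
    (hblk : ∀ g ∈ A, E g → ∀ i, ∀ v ∉ core D, ¬ Conn g (p i) v)
    {A' : Finset (V → ℤ)} (hA' : ∀ g, g ∈ A' ↔ g ∈ A ∧ E g) :
    ∑ g ∈ A', ∏ i, (g (p i) : ℝ) ≤
      avg (Zs D 0 (bdry D ∪ W)) (fun h => ∏ i, (h (p i) : ℝ)) * A'.card := by
  have h1 : avg (Zs D 0 (bdry D ∪ W)) (fun h => ∏ i, (h (p i) : ℝ)) =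
      avg (Zs D 0 (bdry D ∪ W)) (clm p) := by
    unfold avg
    exact congrArg (· / _) (prod_clm D 0 (bdry D ∪ W) Finset.subset_union_left p)
  rw [h1, sum_prod_filter hA hE.abs (fun g hg hEg i v hv => hblk g hg hEg i v
    fun h => core_not_bdry hDD' h hv) hA']
  exact ub_clm hD hDD' hWD hWp hA hE hEW hblk hA'

section

variable {n : ℕ} {D D' W s t : Finset V} {E : (V → ℤ) → Prop}

/-- products of heights, all levels -/
theorem sumL_ub_pt (hD : BdryPar D 0) (hDD' : D ⊆ D') (hWD : W ⊆ D) (hWp : ∀ v ∈ W, Even (par v))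
    (ht : t ⊆ D') {p : Fin n → V} (hpD : ∀ i, p i ∈ D') (hE : Dec E) (hp : PnE t E)
    (hEW : ∀ g, E g → ∀ v ∈ W, g v = 0)
    (hblk : ∀ g, E g → ∀ i, ∀ v ∉ core D, ¬ Conn g (p i) v) :
    sumL D' E (fun g => ∏ i, (g (p i) : ℝ)) ≤
      avg (Zs D 0 (bdry D ∪ W)) (fun g => ∏ i, (g (p i) : ℝ)) * sumL D' E (fun _ => 1) := by
  classical
  obtain ⟨T, hT⟩ := hp.exists_T D'
  have hl : ∀ g g' : V → ℤ, (∀ x ∈ D', g x = g' x) → (E g ↔ E g') :=
    fun g g' hg => hp.loc g g' fun x hx => hg x (ht hx)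
  have hFl : ∀ g g' : V → ℤ, (∀ x ∈ D', g x = g' x) →
      ∏ i, (g (p i) : ℝ) = ∏ i, (g' (p i) : ℝ) :=
    fun g g' hg => Finset.prod_congr rfl fun i _ => by rw [hg _ (hpD i)]
  rw [sumL_eq _ hT, sumL_eq _ hT, Finset.mul_sum]
  refine Finset.sum_le_sum fun k _ => ?_
  rw [sum_Om_lev hl (G := fun g => ∏ i, (g (p i) : ℝ)) hFl k,
    sum_Om_lev hl (G := fun _ => 1) (fun _ _ _ => rfl) k]
  simp only [Finset.sum_const, nsmul_eq_mul, mul_one]
  exact ub_fin hD hDD' hWD hWp (A := Lk D' k) (fun g => mem_Lk) hE hEW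
    (fun g _ hg => hblk g hg) fun g => Finset.mem_filter

lemma avg_prod_lo' (A : Finset (V → ℤ)) (m : Fin n → V → ℝ) :
    avg A (fun h => ∏ i, lo s (m i) h) =
      ∑ p ∈ Fintype.piFinset (fun _ : Fin n => s),
        (∏ i, m i (p i)) * avg A (fun h => ∏ i, (h (p i) : ℝ)) := by
  unfold avg
  simp only [prod_lo]
  rw [Finset.sum_comm, Finset.sum_div]
  refine Finset.sum_congr rfl fun p _ => ?_
  rw [← Finset.mul_sum, mul_div_assoc]

/-- products of linear observables, all levels -/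
theorem sumL_ub (hD : BdryPar D 0) (hDD' : D ⊆ D') (hWD : W ⊆ D) (hWp : ∀ v ∈ W, Even (par v))
    (ht : t ⊆ D') (hs : s ⊆ D') {m : Fin n → V → ℝ} (hm : ∀ i x, 0 ≤ m i x) (hE : Dec E)
    (hp : PnE t E) (hEW : ∀ g, E g → ∀ v ∈ W, g v = 0)
    (hblk : ∀ g, E g → ∀ i, ∀ x ∈ s, m i x ≠ 0 → ∀ v ∉ core D, ¬ Conn g x v) :
    sumL D' E (fun g => ∏ i, lo s (m i) g) ≤
      avg (Zs D 0 (bdry D ∪ W)) (fun g => ∏ i, lo s (m i) g) * sumL D' E (fun _ => 1) := by
  rw [avg_prod_lo']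
  simp only [prod_lo]
  rw [sumL_lin hp, Finset.sum_mul]
  refine Finset.sum_le_sum fun p hps => ?_
  rw [mul_assoc]
  by_cases hz : ∀ i, m i (p i) ≠ 0
  · refine mul_le_mul_of_nonneg_left ?_ (Finset.prod_nonneg fun i _ => hm i _)
    refine sumL_ub_pt hD hDD' hWD hWp ht (fun i => hs (Fintype.mem_piFinset.1 hps i)) hE hp hEW
      fun g hg i v hv => ?_
    exact hblk g hg i (p i) (Fintype.mem_piFinset.1 hps i) (hz i) v hv
  · push Not at hz
    obtain ⟨i, hi⟩ := hz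
    rw [Finset.prod_eq_zero (Finset.mem_univ i) hi, zero_mul, zero_mul]

/-- (Z3) for the floating measure -/
theorem M_ub (hd : Deloc) (hD : BdryPar D 0) (hWD : W ⊆ D) (hWp : ∀ v ∈ W, Even (par v))
    {m : Fin n → V → ℝ} (hm : ∀ i x, 0 ≤ m i x) (hE : Dec E)
    (hp : PnE t E) (hEW : ∀ g, E g → ∀ v ∈ W, g v = 0)
    (hblk : ∀ g, E g → ∀ i, ∀ x ∈ s, m i x ≠ 0 → ∀ v ∉ core D, ¬ Conn g x v) :
    (M (ev E fun h => ∏ i, lo s (m i) h)).re ≤
      avg (Zs D 0 (bdry D ∪ W)) (fun h => ∏ i, lo s (m i) h) * (M (ev E fun _ => 1)).re := by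
  classical
  have := dom_neBot
  have h1 := M_ev_tendsto (s := s) hd hp (F := fun h => ∏ i, lo s (m i) h) fun g g' h =>
    Finset.prod_congr rfl fun i _ => lo_congr h
  have h2 := (M_ev_tendsto (s := s) hd hp (F := fun _ => 1) fun _ _ _ => rfl).const_mul
    (avg (Zs D 0 (bdry D ∪ W)) (fun h => ∏ i, lo s (m i) h))
  refine le_of_tendsto_of_tendsto h1 h2 (eventually_dom.2 ⟨D ∪ s ∪ t, fun D' hD' _ => ?_⟩)
  beta_reduce
  rw [← mul_div_assoc]
  refine div_le_div_of_nonneg_right ?_ (Nat.cast_nonneg _)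
  exact sumL_ub hD (fun x hx => hD' (by simp [hx])) hWD hWp (fun x hx => hD' (by simp [hx]))
    (fun x hx => hD' (by simp [hx])) hm hE hp hEW hblk

end

end WZ
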