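import Pool.Agent.Helper78.WZ.Gw

/-!
# Block WZ (MP_973bc8_pr): the FKG inequality for the measure with a floating boundary level
-/

open Finset RP4 DV SW

namespace WZ

/-- the height functions with boundary value `2 k`, `0 ≤ k ≤ N` -/
noncomputable def UpL (D : Finset V) (N : ℕ) : Finset (V → ℤ) := by
  classical exact (Finset.range (N + 1)).biUnion fun k => Lk D (-(k : ℤ))

lemma mem_UpL {D : Finset V} {N : ℕ} {g : V → ℤ} :
    g ∈ UpL D N ↔ IsHom D 0 g ∧ ∃ k : ℕ, k ≤ N ∧ ∀ v ∈ bdry D, g v = 2 * (k : ℤ) := by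
  classical
  unfold UpL
  rw [Finset.mem_biUnion]
  constructor
  · rintro ⟨k, hk, hg⟩
    rw [mem_Lk] at hg
    refine ⟨hg.1, k, Nat.lt_succ_iff.1 (Finset.mem_range.1 hk), fun v hv => ?_⟩
    rw [hg.2 v hv]
    ring
  · rintro ⟨h1, k, hk, h2⟩
    refine ⟨k, Finset.mem_range.2 (Nat.lt_succ_of_le hk), mem_Lk.2 ⟨h1, fun v hv => ?_⟩⟩
    rw [h2 v hv]
    ring

/-- the constraint of the absolute value -/
def TbL (D : Finset V) (N : ℕ) : Set (V → ℤ) :=
  {ξ | ∃ k : ℕ, k ≤ N ∧ ∀ v ∈ bdry D, ξ v = 2 * (k : ℤ)}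

lemma fam_UpL (D : Finset V) (N : ℕ) : Fam D 0 (bdry D : Set V) (TbL D N) (UpL D N) := by
  intro g
  rw [mem_UpL]
  constructor
  · rintro ⟨h1, k, hk, h2⟩
    refine ⟨h1, ⟨k, hk, fun v hv => ?_⟩, fun v hv => ?_⟩
    · show |g v| = 2 * (k : ℤ)
      rw [h2 v hv]
      exact abs_of_nonneg (by positivity)
    · rw [h2 v hv]
      positivity
  · rintro ⟨h1, ⟨k, hk, h2⟩, h3⟩
    refine ⟨h1, k, hk, fun v hv => ?_⟩
    have h4 : |g v| = 2 * (k : ℤ) := h2 v hv
    rwa [abs_of_nonneg (h3 v hv)] at h4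

lemma lat_TbL (D : Finset V) (N : ℕ) : Lat D 0 (TbL D N) := by
  rintro ξ ⟨j, hj, hξ⟩ η ⟨k, hk, hη⟩ _ _ _ _
  constructor
  · refine ⟨min j k, (min_le_left _ _).trans hj, fun v hv => ?_⟩
    rw [Pi.inf_apply, hξ v hv, hη v hv]
    rcases le_total j k with h | h
    · rw [min_eq_left h, inf_eq_left.2 (by exact_mod_cast Nat.mul_le_mul_left 2 h)]
    · rw [min_eq_right h, inf_eq_right.2 (by exact_mod_cast Nat.mul_le_mul_left 2 h)]
  · refine ⟨max j k, max_le hj hk, fun v hv => ?_⟩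
    rw [Pi.sup_apply, hξ v hv, hη v hv]
    rcases le_total j k with h | h
    · rw [max_eq_right h, sup_eq_right.2 (by exact_mod_cast Nat.mul_le_mul_left 2 h)]
    · rw [max_eq_left h, sup_eq_left.2 (by exact_mod_cast Nat.mul_le_mul_left 2 h)]

open Classical in
/-- the weight of the level -/
noncomputable def wl (D : Finset V) (g : V → ℤ) : ℝ := if ∀ v ∈ bdry D, g v = 0 then 1 else 2

lemma wl_nonneg (D : Finset V) (g : V → ℤ) : 0 ≤ wl D g := by
  unfold wl
  split_ifs <;> norm_num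

lemma wl_abs (D : Finset V) (g : V → ℤ) : wl D (absf g) = wl D g := by
  unfold wl
  have h1 : (∀ v ∈ bdry D, absf g v = 0) ↔ ∀ v ∈ bdry D, g v = 0 :=
    forall₂_congr fun v _ => abs_eq_zero
  simp only [h1]

lemma wl_mul {D : Finset V} {N : ℕ} {ξ' ξ : V → ℤ} (h' : ξ' ∈ TbL D N) (h : ξ ∈ TbL D N) :
    wl D ξ' * wl D ξ ≤ wl D (ξ' ⊓ ξ) * wl D (ξ' ⊔ ξ) := by
  obtain ⟨j, -, hj⟩ := h'
  obtain ⟨k, -, hk⟩ := h
  have key : ∀ (η : V → ℤ) (l : ℕ), (∀ v ∈ bdry D, η v = 2 * (l : ℤ)) →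
      wl D η = if (bdry D = ∅ ∨ l = 0) then 1 else 2 := by
    intro η l hη
    unfold wl
    by_cases hb : bdry D = ∅
    · rw [if_pos (Or.inl hb), if_pos]
      intro v hv
      rw [hb] at hv
      exact absurd hv (Finset.notMem_empty v)
    · obtain ⟨v0, hv0⟩ := Finset.nonempty_iff_ne_empty.2 hb
      by_cases hl : l = 0
      · rw [if_pos (Or.inr hl), if_pos]
        intro v hv
        rw [hη v hv, hl]
        simp
      · have hcon : ¬ ∀ v ∈ bdry D, η v = 0 := by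
          intro hcon
          have h1 := hcon v0 hv0
          rw [hη v0 hv0] at h1
          omega
        rw [if_neg hcon, if_neg (fun h => h.elim hb hl)]
  have h1 : ∀ v ∈ bdry D, (ξ' ⊓ ξ) v = 2 * ((min j k : ℕ) : ℤ) := by
    intro v hv
    rw [Pi.inf_apply, hj v hv, hk v hv]
    rcases le_total j k with h | h
    · rw [min_eq_left h, inf_eq_left.2 (by exact_mod_cast Nat.mul_le_mul_left 2 h)]
    · rw [min_eq_right h, inf_eq_right.2 (by exact_mod_cast Nat.mul_le_mul_left 2 h)]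
  have h2 : ∀ v ∈ bdry D, (ξ' ⊔ ξ) v = 2 * ((max j k : ℕ) : ℤ) := by
    intro v hv
    rw [Pi.sup_apply, hj v hv, hk v hv]
    rcases le_total j k with h | h
    · rw [max_eq_right h, sup_eq_right.2 (by exact_mod_cast Nat.mul_le_mul_left 2 h)]
    · rw [max_eq_left h, sup_eq_left.2 (by exact_mod_cast Nat.mul_le_mul_left 2 h)]
  rw [key _ _ hj, key _ _ hk, key _ _ h1, key _ _ h2]
  rcases le_total j k with h | h
  · rw [min_eq_left h, max_eq_right h]
  · rw [min_eq_right h, max_eq_left h, mul_comm]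

/-- change of the sign -/
lemma sum_Lk_neg (D : Finset V) (k : ℤ) {G : (V → ℤ) → ℝ} (hG : ∀ g, G (-g) = G g) :
    ∑ g ∈ Lk D (-k), G g = ∑ g ∈ Lk D k, G g := by
  classical
  refine Finset.sum_bij (fun g _ => -g) (fun g hg => ?_) (fun a _ b _ h => neg_injective h)
    (fun g hg => ⟨-g, ?_, neg_neg g⟩) (fun g _ => (hG g).symm)
  · rw [mem_Lk] at hg ⊢
    refine ⟨⟨fun v hv => ?_, fun v hv => ?_, fun u hu v hv huv => ?_⟩, fun v hv => ?_⟩
    · rw [Pi.neg_apply, hg.1.off v hv, neg_zero]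
    · have h1 := hg.1.par v hv
      rw [Pi.neg_apply]
      rw [Int.even_iff] at h1 ⊢
      omega
    · rw [Pi.neg_apply, Pi.neg_apply]
      have h1 := hg.1.step u hu v hv huv
      rw [← h1, ← abs_neg]
      congr 1
      ring
    · rw [Pi.neg_apply, hg.2 v hv]
      ring
  · rw [mem_Lk] at hg ⊢
    refine ⟨⟨fun v hv => ?_, fun v hv => ?_, fun u hu v hv huv => ?_⟩, fun v hv => ?_⟩
    · rw [Pi.neg_apply, hg.1.off v hv, neg_zero]
    · have h1 := hg.1.par v hv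
      rw [Pi.neg_apply]
      rw [Int.even_iff] at h1 ⊢
      omega
    · rw [Pi.neg_apply, Pi.neg_apply]
      have h1 := hg.1.step u hu v hv huv
      rw [← h1, ← abs_neg]
      congr 1
      ring
    · rw [Pi.neg_apply, hg.2 v hv]
      ring

/-- the sum over all levels as a weighted sum over the nonnegative levels -/
theorem sum_levels {D : Finset V} (hb : (bdry D).Nonempty) (N : ℕ) {G : (V → ℤ) → ℝ}
    (hG : ∀ g, G (-g) = G g) :
    ∑ k ∈ Finset.Icc (-(N : ℤ)) N, ∑ g ∈ Lk D k, G g = ∑ g ∈ UpL D N, wl D g * G g := by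
  classical
  obtain ⟨v0, hv0⟩ := hb
  induction N with
  | zero =>
    have h1 : Finset.Icc (-((0 : ℕ) : ℤ)) ((0 : ℕ) : ℤ) = {0} := by simp
    have h2 : UpL D 0 = Lk D 0 := by
      ext g
      rw [mem_UpL, mem_Lk]
      constructor
      · rintro ⟨h1, k, hk, h2⟩
        refine ⟨h1, fun v hv => ?_⟩
        rw [h2 v hv, Nat.le_zero.1 hk]
        simp
      · rintro ⟨h1, h2⟩
        refine ⟨h1, 0, le_rfl, fun v hv => ?_⟩
        rw [h2 v hv]
        simp
    rw [h1, Finset.sum_singleton, h2]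
    refine Finset.sum_congr rfl fun g hg => ?_
    rw [mem_Lk] at hg
    unfold wl
    rw [if_pos, one_mul]
    intro v hv
    rw [hg.2 v hv]
    simp
  | succ N ih =>
    have h1 : Finset.Icc (-((N + 1 : ℕ) : ℤ)) ((N + 1 : ℕ) : ℤ) =
        insert ((N + 1 : ℕ) : ℤ) (insert (-((N + 1 : ℕ) : ℤ)) (Finset.Icc (-(N : ℤ)) N)) := by
      ext k
      simp only [Finset.mem_insert, Finset.mem_Icc]
      push_cast
      omega
    have h2 : UpL D (N + 1) = UpL D N ∪ Lk D (-((N + 1 : ℕ) : ℤ)) := by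
      unfold UpL
      rw [Finset.range_add_one (n := N + 1), Finset.biUnion_insert, Finset.union_comm]
    have h3 : Disjoint (UpL D N) (Lk D (-((N + 1 : ℕ) : ℤ))) := by
      rw [Finset.disjoint_left]
      intro g hg hg'
      rw [mem_UpL] at hg
      rw [mem_Lk] at hg'
      obtain ⟨-, k, hk, h4⟩ := hg
      have h5 := h4 v0 hv0
      have h6 := hg'.2 v0 hv0
      push_cast at h6
      omega
    rw [h1, Finset.sum_insert, Finset.sum_insert, ih, h2, Finset.sum_union h3, ← add_assoc,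
      add_comm]
    · congr 1
      rw [sum_Lk_neg D _ hG]
      have h4 : ∑ g ∈ Lk D (-((N + 1 : ℕ) : ℤ)), wl D g * G g =
          ∑ g ∈ Lk D (-((N + 1 : ℕ) : ℤ)), 2 * G g := by
        refine Finset.sum_congr rfl fun g hg => ?_
        rw [mem_Lk] at hg
        unfold wl
        rw [if_neg]
        intro hcon
        have h5 := hcon v0 hv0
        have h6 := hg.2 v0 hv0
        push_cast at h6
        omega
      rw [h4, ← Finset.mul_sum, sum_Lk_neg D _ hG]
      ring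
    · simp only [Finset.mem_Icc, not_and, not_le]
      push_cast
      omega
    · simp only [Finset.mem_insert, Finset.mem_Icc, not_or, not_and, not_le]
      push_cast
      constructor
      · omega
      · omega

/-- the FKG inequality for the sum over all levels: two events `E'`, `E` of the absolute value such that
the infimum keeps `E'` and the supremum keeps `E` -/
theorem levels_fkg {D : Finset V} (hb : (bdry D).Nonempty) (N : ℕ) {E E' : (V → ℤ) → Prop}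
    [DecidablePred E] [DecidablePred E']
    (ha : ∀ g, E (absf g) ↔ E g) (ha' : ∀ g, E' (absf g) ↔ E' g)
    (hlat : ∀ ξ' ξ : V → ℤ, IsHom D 0 ξ' → IsHom D 0 ξ → (∀ v, 0 ≤ ξ' v) → (∀ v, 0 ≤ ξ v) →
      E' ξ' → E ξ → E' (ξ' ⊓ ξ) ∧ E (ξ' ⊔ ξ)) {F : (V → ℤ) → ℝ} (hF : IncF F) :
    (∑ k ∈ Finset.Icc (-(N : ℤ)) N, ∑ g ∈ (Lk D k).filter E', F g) *
        (∑ k ∈ Finset.Icc (-(N : ℤ)) N, (((Lk D k).filter E).card : ℝ)) ≤
      (∑ k ∈ Finset.Icc (-(N : ℤ)) N, ∑ g ∈ (Lk D k).filter E, F g) *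
        (∑ k ∈ Finset.Icc (-(N : ℤ)) N, (((Lk D k).filter E').card : ℝ)) := by
  classical
  have hneg : ∀ g : V → ℤ, absf (-g) = absf g := fun g => by
    funext v
    show |(-g) v| = |g v|
    rw [Pi.neg_apply, abs_neg]
  -- sums with an event
  have key : ∀ (P : (V → ℤ) → Prop) [DecidablePred P], (∀ g, P (absf g) ↔ P g) →
      ∀ G : (V → ℤ) → ℝ, (∀ g, G (absf g) = G g) →
      ∑ k ∈ Finset.Icc (-(N : ℤ)) N, ∑ g ∈ (Lk D k).filter P, G g =
        ∑ g ∈ (UpL D N).filter P, wl D g * G g := by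
    intro P _ hP G hG
    have h1 := sum_levels hb N (G := fun g => if P g then G g else 0) (fun g => by
      have h2 : P (-g) ↔ P g := by rw [← hP (-g), hneg, hP]
      have h3 : G (-g) = G g := by rw [← hG (-g), hneg, hG]
      simp only [h2, h3])
    simp only [Finset.sum_filter]
    rw [h1]
    refine Finset.sum_congr rfl fun g _ => ?_
    split_ifs
    · rfl
    · rw [mul_zero]
  have key1 : ∀ (P : (V → ℤ) → Prop) [DecidablePred P], (∀ g, P (absf g) ↔ P g) →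
      ∑ k ∈ Finset.Icc (-(N : ℤ)) N, (((Lk D k).filter P).card : ℝ) =
        ∑ g ∈ (UpL D N).filter P, wl D g := by
    intro P _ hP
    have h1 := key P hP (fun _ => 1) fun _ => rfl
    simp only [mul_one, Finset.sum_const, nsmul_eq_mul] at h1
    exact h1
  rw [key E' ha' F hF.abs, key E ha F hF.abs, key1 E ha, key1 E' ha']
  have famE : ∀ (P : (V → ℤ) → Prop) [DecidablePred P], (∀ g, P (absf g) ↔ P g) →
      Fam D 0 (bdry D : Set V) {ξ | ξ ∈ TbL D N ∧ P ξ} ((UpL D N).filter P) := by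
    intro P _ hP g
    rw [Finset.mem_filter, fam_UpL D N g]
    constructor
    · rintro ⟨⟨h1, h2, h3⟩, h4⟩
      exact ⟨h1, ⟨h2, (hP g).2 h4⟩, h3⟩
    · rintro ⟨h1, ⟨h2, h4⟩, h3⟩
      exact ⟨⟨h1, h2, h3⟩, (hP g).1 h4⟩
  have h := gfkg_w (famE E' ha') (famE E ha)
    (fun ξ' h1 ξ h2 i1 i2 n1 n2 => ⟨(lat_TbL D N ξ' h1.1 ξ h2.1 i1 i2 n1 n2).1,
      (hlat ξ' ξ i1 i2 n1 n2 h1.2 h2.2).1⟩)
    (fun ξ' h1 ξ h2 i1 i2 n1 n2 => ⟨(lat_TbL D N ξ' h1.1 ξ h2.1 i1 i2 n1 n2).2,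
      (hlat ξ' ξ i1 i2 n1 n2 h1.2 h2.2).2⟩)
    (wl_nonneg D) (wl_abs D) (fun ξ' h1 ξ h2 _ _ _ _ => wl_mul h1.1 h2.1) hF
  rw [mul_comm (∑ g ∈ (UpL D N).filter E, wl D g * F g)]
  exact h

end WZ
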